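import Mathlib
import Pool.Agent.Helper728.Coag.Brouwer

set_option autoImplicit false

open Set Metric MeasureTheory Topology Filter
open scoped NNReal

namespace Pool.Agent.H881R3.Expand

/-- Euclidean space of dimension `n`. -/
abbrev E (n : ℕ) := EuclideanSpace ℝ (Fin n)

theorem exists_small_avoid {n : ℕ} (G : E n → E n) (K : ℝ≥0) (hG : LipschitzWith K G)
    (y p : E n) {ε ε' : ℝ} (hε : 0 < ε) (hε' : 0 < ε') :
    ∃ v : E n, ‖v‖ < ε' ∧ p - v ∉ G '' sphere y ε := by
  by_contra hcon
  push Not at hcon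
  have hH : (μH[(Module.finrank ℝ (E n) : ℝ)] : Measure (E n)).IsAddHaarMeasure :=
    isAddHaarMeasure_hausdorffMeasure
  have h1 : (μH[(Module.finrank ℝ (E n) : ℝ)] : Measure (E n)) (sphere y ε) = 0 :=
    Measure.addHaar_sphere_of_ne_zero _ y hε.ne'
  have h2 : (μH[(Module.finrank ℝ (E n) : ℝ)] : Measure (E n)) (G '' sphere y ε) = 0 := by
    have := hG.hausdorffMeasure_image_le (d := (Module.finrank ℝ (E n) : ℝ)) (Nat.cast_nonneg _)
      (sphere y ε)
    rw [h1, mul_zero] at this
    exact le_antisymm this zero_le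
  have h3 : ball p ε' ⊆ G '' sphere y ε := by
    intro w hw
    have h4 := hcon (p - w) (by
      rw [← dist_eq_norm, dist_comm]; exact hw)
    simpa using h4
  have h5 : 0 < (μH[(Module.finrank ℝ (E n) : ℝ)] : Measure (E n)) (ball p ε') :=
    measure_ball_pos _ p hε'
  exact absurd (measure_mono_null h3 h2) h5.ne'

/-- A continuous map that does not decrease distances on a closed ball is open at the centre. -/
theorem open_image {n : ℕ} (F : E n → E n) (hF : Continuous F) (a : E n) (ρ : ℝ) (hρ : 0 < ρ)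
    (hexp : ∀ x ∈ closedBall a ρ, ∀ w ∈ closedBall a ρ, dist x w ≤ dist (F x) (F w)) :
    F '' closedBall a ρ ∈ 𝓝 (F a) := by
  classical
  by_contra hA
  set A := F '' closedBall a ρ with hAdef
  have hinj : InjOn F (closedBall a ρ) := by
    intro x hx w hw hxw
    have := hexp x hx w hw
    rw [hxw, dist_self] at this
    exact dist_le_zero.1 this
  set G0 : E n → E n := Function.invFunOn F (closedBall a ρ) with hG0
  have hG0F : ∀ x ∈ closedBall a ρ, G0 (F x) = x := by
    intro x hx
    exact hinj.leftInvOn_invFunOn hx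
  have hLip : LipschitzOnWith 1 G0 A := by
    apply LipschitzOnWith.of_dist_le_mul
    rintro _ ⟨x, hx, rfl⟩ _ ⟨w, hw, rfl⟩
    rw [hG0F x hx, hG0F w hw]
    simpa using hexp x hx w hw
  obtain ⟨G, hGL, hGeq⟩ := hLip.extend_finite_dimension
  have hGF : ∀ x ∈ closedBall a ρ, G (F x) = x := by
    intro x hx
    rw [← hGeq (mem_image_of_mem F hx), hG0F x hx]
  set K : ℝ≥0 := (lipschitzExtensionConstant (E n) * 1) with hK
  set ε : ℝ := ρ / (2 * ((K : ℝ) + 1)) with hεdef
  have hK0 : (0 : ℝ) ≤ K := K.coe_nonneg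
  have hε : 0 < ε := by positivity
  have hKε : (K : ℝ) * ε ≤ ρ / 2 := by
    rw [hεdef]
    have h1 : (K : ℝ) * (ρ / (2 * ((K : ℝ) + 1))) = (ρ / 2) * ((K : ℝ) / ((K : ℝ) + 1)) := by
      field_simp
    rw [h1]
    have h2 : (K : ℝ) / ((K : ℝ) + 1) ≤ 1 := by
      rw [div_le_one (by linarith)]; linarith
    nlinarith
  obtain ⟨y, hy1, hy2⟩ : ∃ y, dist y (F a) < ε / 2 ∧ y ∉ A := by
    by_contra hcon
    push Not at hcon
    apply hA
    exact Filter.mem_of_superset (ball_mem_nhds (F a) (half_pos hε)) (fun w hw => hcon w hw)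
  obtain ⟨η, hη, hηF⟩ : ∃ η > 0, ∀ x, dist x a < η → dist (F x) (F a) < ε / 2 := by
    have := Metric.continuous_iff.1 hF a (ε / 2) (half_pos hε)
    exact this
  obtain ⟨v, hv1, hv2⟩ := exists_small_avoid G K hGL y a hε (lt_min hη (half_pos hρ))
  have hvη : ‖v‖ < η := hv1.trans_le (min_le_left _ _)
  have hvρ : ‖v‖ < ρ / 2 := hv1.trans_le (min_le_right _ _)
  -- the radial push
  set Φ : E n → E n := fun w => y + (max (ε / ‖w - y‖) 1) • (w - y) with hΦ
  have hΦdist : ∀ w, w ≠ y → dist w (Φ w) ≤ ε := by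
    intro w hw
    have hpos : 0 < ‖w - y‖ := norm_pos_iff.2 (sub_ne_zero.2 hw)
    have h1 : Φ w - w = (max (ε / ‖w - y‖) 1 - 1) • (w - y) := by
      simp only [hΦ]; rw [sub_smul, one_smul]; abel
    rw [dist_comm, dist_eq_norm, h1, norm_smul, Real.norm_eq_abs]
    rw [abs_of_nonneg (by have := le_max_right (ε / ‖w - y‖) 1; linarith)]
    rcases le_total (ε / ‖w - y‖) 1 with h | h
    · rw [max_eq_right h]; simp; exact hε.le
    · rw [max_eq_left h, sub_mul, div_mul_cancel₀ _ hpos.ne']
      linarith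
  -- projection to the ball
  set P : E n → E n := fun x => a + (ρ / max ρ ‖x - a‖) • (x - a) with hP
  have hmaxpos : ∀ x : E n, 0 < max ρ ‖x - a‖ := fun x => lt_max_of_lt_left hρ
  have hPc : Continuous P := by
    have h1 : Continuous (fun x : E n => ρ / max ρ ‖x - a‖) :=
      Continuous.div continuous_const (by fun_prop) (fun x => (hmaxpos x).ne')
    exact continuous_const.add (h1.smul (continuous_id.sub continuous_const))
  have hPball : ∀ x, P x ∈ closedBall a ρ := by
    intro x
    rw [mem_closedBall, dist_eq_norm]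
    have : P x - a = (ρ / max ρ ‖x - a‖) • (x - a) := by simp [hP]
    rw [this, norm_smul, Real.norm_eq_abs, abs_of_nonneg (by have := hmaxpos x; positivity),
      div_mul_eq_mul_div, div_le_iff₀ (hmaxpos x)]
    exact mul_le_mul_of_nonneg_left (le_max_right _ _) hρ.le
  have hPid : ∀ x, ‖x - a‖ ≤ ρ → P x = x := by
    intro x hx
    simp only [hP]
    rw [max_eq_left hx, div_self hρ.ne', one_smul]; abel
  set W : E n → E n := fun x => F (P x) with hW
  have hWc : Continuous W := hF.comp hPc
  have hWne : ∀ x, W x ≠ y := by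
    intro x h
    exact hy2 (h ▸ mem_image_of_mem F (hPball x))
  have hWΦc : Continuous (fun x => Φ (W x)) := by
    have h1 : Continuous (fun x => ε / ‖W x - y‖) :=
      Continuous.div continuous_const ((hWc.sub continuous_const).norm)
        (fun x => norm_ne_zero_iff.2 (sub_ne_zero.2 (hWne x)))
    exact continuous_const.add ((h1.max continuous_const).smul (hWc.sub continuous_const))
  set T : E n → E n := fun x => P x - (G (Φ (W x)) + v - a) with hT
  have hTc : Continuous T :=
    hPc.sub (((hGL.continuous.comp hWΦc).add continuous_const).sub continuous_const)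
  have hTa : ∀ x, ‖T x - a‖ ≤ ρ := by
    intro x
    have h1 : T x - a = (G (W x) - G (Φ (W x))) - v := by
      simp only [hT, hW]
      rw [hGF _ (hPball x)]; abel
    rw [h1]
    calc ‖(G (W x) - G (Φ (W x))) - v‖ ≤ ‖G (W x) - G (Φ (W x))‖ + ‖v‖ := norm_sub_le _ _
      _ ≤ K * ε + ρ / 2 := by
          apply add_le_add _ hvρ.le
          rw [← dist_eq_norm]
          exact (hGL.dist_le_mul _ _).trans
            (mul_le_mul_of_nonneg_left (hΦdist _ (hWne x)) hK0)
      _ ≤ ρ := by linarith
  obtain ⟨x, hx⟩ := Pool.Agent.Helper728.Coag.Brouwer.brouwer T hTc (ρ + ‖a‖) (by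
    intro x
    calc ‖T x‖ = ‖(T x - a) + a‖ := by rw [sub_add_cancel]
      _ ≤ ‖T x - a‖ + ‖a‖ := norm_add_le _ _
      _ ≤ ρ + ‖a‖ := by have := hTa x; linarith)
  have hxρ : ‖x - a‖ ≤ ρ := by have := hTa x; rwa [hx] at this
  have hPx : P x = x := hPid x hxρ
  have hkey : G (Φ (F x)) = a - v := by
    have h1 : P x - (G (Φ (W x)) + v - a) = x := hx
    have h2 : W x = F x := by simp only [hW, hPx]
    rw [h2, hPx] at h1
    have h3 : G (Φ (F x)) + v - a = 0 := by
      have := sub_eq_self.1 h1
      exact this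
    have h4 : G (Φ (F x)) + v = a := sub_eq_zero.1 h3
    exact eq_sub_of_add_eq h4
  have hFxne : F x ≠ y := by
    have := hWne x
    simp only [hW, hPx] at this
    exact this
  have hpos : 0 < ‖F x - y‖ := norm_pos_iff.2 (sub_ne_zero.2 hFxne)
  rcases le_or_gt ε ‖F x - y‖ with hc | hc
  · -- far from y
    have h1 : Φ (F x) = F x := by
      simp only [hΦ]
      rw [max_eq_right ((div_le_one hpos).2 hc), one_smul]; abel
    have hxmem : x ∈ closedBall a ρ := by rw [mem_closedBall, dist_eq_norm]; exact hxρ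
    rw [h1, hGF x hxmem] at hkey
    have h2 : dist x a < η := by
      rw [dist_eq_norm, hkey]; simpa using hvη
    have h3 := hηF x h2
    have h4 : dist (F x) y ≤ dist (F x) (F a) + dist (F a) y := dist_triangle _ _ _
    rw [dist_eq_norm (F x) y, dist_comm (F a) y] at h4
    linarith
  · -- near y
    apply hv2
    refine ⟨Φ (F x), ?_, hkey⟩
    rw [mem_sphere, dist_eq_norm]
    have h1 : Φ (F x) - y = (ε / ‖F x - y‖) • (F x - y) := by
      simp only [hΦ]
      rw [max_eq_left ((one_le_div hpos).2 hc.le)]; abel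
    rw [h1, norm_smul, Real.norm_eq_abs, abs_of_nonneg (by positivity),
      div_mul_cancel₀ _ hpos.ne']

/-- Covering lemma: the image of a closed ball of radius `ρ` contains the open ball of radius `ρ`
about the image of the centre. -/
theorem cover {n : ℕ} (F : E n → E n) (hF : Continuous F) (a : E n) (ρ : ℝ) (hρ : 0 < ρ)
    (hexp : ∀ x ∈ closedBall a ρ, ∀ w ∈ closedBall a ρ, dist x w ≤ dist (F x) (F w)) :
    ball (F a) ρ ⊆ F '' closedBall a ρ := by
  intro y hy
  set A := F '' closedBall a ρ with hAdef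
  have hAc : IsClosed A := ((isCompact_closedBall a ρ).image hF).isClosed
  set T : Set ℝ := (fun t : ℝ => AffineMap.lineMap (F a) y t) ⁻¹' A with hT
  have hlc : Continuous (fun t : ℝ => (AffineMap.lineMap (F a) y t : E n)) :=
    AffineMap.lineMap_continuous
  have hTc : IsClosed T := hAc.preimage hlc
  have h0 : (0 : ℝ) ∈ T := by
    show AffineMap.lineMap (F a) y (0 : ℝ) ∈ A
    rw [AffineMap.lineMap_apply_zero]
    exact mem_image_of_mem F (mem_closedBall_self hρ.le)
  have hsub : Icc (0 : ℝ) 1 ⊆ T := by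
    apply (hTc.inter isClosed_Icc).Icc_subset_of_forall_mem_nhdsWithin h0
    rintro t ⟨⟨x, hx, hxt⟩, ht0, ht1⟩
    have hxt' : F x = AffineMap.lineMap (F a) y t := hxt
    have hda : dist x a < ρ := by
      have h1 := hexp x hx a (mem_closedBall_self hρ.le)
      rw [hxt'] at h1
      rw [dist_lineMap_left, Real.norm_eq_abs, abs_of_nonneg ht0] at h1
      have h2 : dist y (F a) < ρ := hy
      have h3 : dist (F a) y < ρ := by rw [dist_comm]; exact h2
      calc dist x a ≤ t * dist (F a) y := h1
        _ ≤ 1 * dist (F a) y := mul_le_mul_of_nonneg_right ht1.le dist_nonneg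
        _ < ρ := by rw [one_mul]; exact h3
    have hsubball : closedBall x (ρ - dist x a) ⊆ closedBall a ρ := by
      intro w hw
      rw [mem_closedBall] at hw ⊢
      calc dist w a ≤ dist w x + dist x a := dist_triangle _ _ _
        _ ≤ ρ := by linarith
    have h2 := open_image F hF x (ρ - dist x a) (by linarith)
      (fun p hp q hq => hexp p (hsubball hp) q (hsubball hq))
    have h3 : A ∈ 𝓝 (F x) := Filter.mem_of_superset h2 (image_mono hsubball)
    rw [hxt'] at h3
    have h4 : T ∈ 𝓝 t := hlc.continuousAt h3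
    exact mem_nhdsWithin_of_mem_nhds h4
  have h1 : (1 : ℝ) ∈ T := hsub ⟨zero_le_one, le_rfl⟩
  have : AffineMap.lineMap (F a) y (1 : ℝ) ∈ A := h1
  rwa [AffineMap.lineMap_apply_one] at this

end Pool.Agent.H881R3.Expand
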