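import Mathlib
import Pool.Agent.H881R3.Expand.Cover

set_option autoImplicit false

open Set Metric Topology Filter
open scoped NNReal

namespace Pool.Agent.H881R3.Expand

/-- Uniform form of the hypothesis: `F` is continuous, and it does not decrease the distance of two
points of `S` that are closer than `δ`. -/
structure Expd {n : ℕ} (S : Set (E n)) (F : E n → E n) (δ : ℝ) : Prop where
  cont : Continuous F
  pos : 0 < δ
  exp : ∀ a ∈ S, ∀ b ∈ S, dist a b < δ → dist a b ≤ dist (F a) (F b)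

theorem Expd.cover {n : ℕ} {S : Set (E n)} {F : E n → E n} {δ : ℝ} (h : Expd S F δ)
    (a : E n) (η : ℝ) (hη : 0 < η) (h2 : 2 * η < δ) (hsub : closedBall a η ⊆ S) :
    ∀ y, dist y (F a) < η → ∃ x ∈ closedBall a η, F x = y ∧ dist x a ≤ dist y (F a) := by
  intro y hy
  have hexp : ∀ x ∈ closedBall a η, ∀ w ∈ closedBall a η, dist x w ≤ dist (F x) (F w) := by
    intro x hx w hw
    apply h.exp x (hsub hx) w (hsub hw)
    rw [mem_closedBall] at hx hw
    calc dist x w ≤ dist x a + dist w a := dist_triangle_right _ _ _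
      _ < δ := by linarith
  obtain ⟨x, hx, hxy⟩ := Expand.cover F h.cont a η hη hexp hy
  exact ⟨x, hx, hxy, by rw [← hxy]; exact hexp x hx a (mem_closedBall_self hη.le)⟩

/-- Global covering: a ball inside `S` covers the ball of the same radius in the image. -/
theorem Expd.reach {n : ℕ} {S : Set (E n)} {F : E n → E n} {δ : ℝ} (h : Expd S F δ)
    (x : E n) (ρ : ℝ) (hsub : closedBall x ρ ⊆ S) (y : E n) (hy : dist y (F x) < ρ) :
    ∃ a, dist a x ≤ dist y (F x) ∧ F a = y := by
  set D := dist y (F x) with hD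
  have hD0 : 0 ≤ D := dist_nonneg
  set K : Set (ℝ × E n) := {p | p.1 ∈ Icc (0 : ℝ) 1 ∧ p.2 ∈ closedBall x ρ ∧ dist p.2 x ≤ p.1 * D ∧
    F p.2 = AffineMap.lineMap (F x) y p.1} with hK
  have hlc : Continuous (fun t : ℝ => (AffineMap.lineMap (F x) y t : E n)) :=
    AffineMap.lineMap_continuous
  have hKc : IsCompact K := by
    refine (isCompact_Icc.prod (isCompact_closedBall x ρ)).of_isClosed_subset
      (s := Icc (0 : ℝ) 1 ×ˢ closedBall x ρ) (t := K) ?_ ?_
    · have e : K = (Prod.fst ⁻¹' Icc (0 : ℝ) 1) ∩ ((Prod.snd ⁻¹' closedBall x ρ) ∩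
        ({p | dist p.2 x ≤ p.1 * D} ∩ {p | F p.2 = AffineMap.lineMap (F x) y p.1})) := by
        ext p; simp [hK]
      rw [e]
      refine (isClosed_Icc.preimage continuous_fst).inter
        ((isClosed_closedBall.preimage continuous_snd).inter (IsClosed.inter ?_ ?_))
      · exact isClosed_le (by fun_prop) (by fun_prop)
      · exact isClosed_eq (h.cont.comp continuous_snd) (hlc.comp continuous_fst)
    · rintro p ⟨h1, h2, -, -⟩
      exact ⟨h1, h2⟩
  set T : Set ℝ := Prod.fst '' K with hT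
  have hTc : IsClosed T := (hKc.image continuous_fst).isClosed
  have h0 : (0 : ℝ) ∈ T := by
    refine ⟨(0, x), ⟨⟨le_rfl, zero_le_one⟩, mem_closedBall_self (by linarith), by simp, by simp⟩, rfl⟩
  have hsub2 : Icc (0 : ℝ) 1 ⊆ T := by
    apply (hTc.inter isClosed_Icc).Icc_subset_of_forall_mem_nhdsWithin h0
    rintro t ⟨⟨⟨t', a⟩, ⟨-, ha, had, haF⟩, ht'⟩, ht0, ht1⟩
    simp only at ht' ha had haF
    subst ht'
    have hlt : t' * D < ρ := by
      calc t' * D ≤ 1 * D := mul_le_mul_of_nonneg_right ht1.le hD0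
        _ < ρ := by rw [one_mul]; exact hy
    set η := min (ρ - t' * D) (δ / 3) with hη
    have hηpos : 0 < η := lt_min (by linarith) (by have := h.pos; positivity)
    have hη1 : η ≤ ρ - t' * D := min_le_left _ _
    have hη2 : η ≤ δ / 3 := min_le_right _ _
    have hsb : closedBall a η ⊆ S := by
      intro w hw
      apply hsub
      rw [mem_closedBall] at hw ⊢
      calc dist w x ≤ dist w a + dist a x := dist_triangle _ _ _
        _ ≤ ρ := by linarith
    have hc := h.cover a η hηpos (by have := h.pos; linarith) hsb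
    have hD1 : 0 < D + 1 := by linarith
    have hnb : Ioo t' (min 1 (t' + η / (D + 1))) ∈ 𝓝[>] t' :=
      Ioo_mem_nhdsGT (lt_min ht1 (by have : 0 < η / (D + 1) := by positivity
                                     linarith))
    apply Filter.mem_of_superset hnb
    intro u hu
    have hu1 : u < 1 := hu.2.trans_le (min_le_left _ _)
    have hu2 : u < t' + η / (D + 1) := hu.2.trans_le (min_le_right _ _)
    have hdu : dist (AffineMap.lineMap (F x) y u : E n) (F a) = (u - t') * D := by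
      rw [haF, dist_lineMap_lineMap, Real.dist_eq, abs_of_nonneg (by linarith [hu.1]), dist_comm (F x) y]
    obtain ⟨w, hw, hwF, hwd⟩ := hc (AffineMap.lineMap (F x) y u) (by
      rw [hdu]
      have h1 : u - t' < η / (D + 1) := by linarith
      have h2 : (u - t') * (D + 1) < η := by rwa [lt_div_iff₀ hD1] at h1
      nlinarith [hu.1])
    rw [hdu] at hwd
    have hwx : dist w x ≤ u * D := by
      calc dist w x ≤ dist w a + dist a x := dist_triangle _ _ _
        _ ≤ (u - t') * D + t' * D := add_le_add hwd had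
        _ = u * D := by ring
    refine ⟨(u, w), ⟨⟨by linarith [hu.1], hu1.le⟩, ?_, hwx, hwF⟩, rfl⟩
    rw [mem_closedBall]
    calc dist w x ≤ u * D := hwx
      _ ≤ 1 * D := mul_le_mul_of_nonneg_right hu1.le hD0
      _ ≤ ρ := by rw [one_mul]; exact hy.le
  obtain ⟨⟨t, a⟩, ⟨-, -, had, haF⟩, ht⟩ := hsub2 (⟨zero_le_one, le_rfl⟩ : (1 : ℝ) ∈ Icc (0:ℝ) 1)
  simp only at ht had haF
  subst ht
  exact ⟨a, by simpa using had, by simpa using haF⟩

/-- `γ` is a lift, starting at `b` and ending at `s`, of the straight segment from `F b` to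
`F s`, inside `S`. -/
def Vis {n : ℕ} (S : Set (E n)) (F : E n → E n) (b s : E n) (γ : ℝ → E n) : Prop :=
  γ 0 = b ∧ γ 1 = s ∧
  (∀ t ∈ Icc (0 : ℝ) 1, γ t ∈ S ∧ F (γ t) = AffineMap.lineMap (F b) (F s) t) ∧
  ∀ t ∈ Icc (0 : ℝ) 1, ∀ u ∈ Icc (0 : ℝ) 1, dist (γ t) (γ u) ≤ dist (F b) (F s) * |t - u|

theorem Vis.dist_le {n : ℕ} {S : Set (E n)} {F : E n → E n} {b s : E n} {γ : ℝ → E n}
    (h : Vis S F b s γ) (t : ℝ) (ht : t ∈ Icc (0 : ℝ) 1) :
    dist (γ t) b + dist (γ t) s ≤ dist (F b) (F s) := by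
  obtain ⟨h0, h1, -, h3⟩ := h
  have ha := h3 t ht 0 ⟨le_rfl, zero_le_one⟩
  have hb := h3 t ht 1 ⟨zero_le_one, le_rfl⟩
  rw [h0, sub_zero, abs_of_nonneg ht.1] at ha
  rw [h1, abs_sub_comm, abs_of_nonneg (by linarith [ht.2])] at hb
  calc dist (γ t) b + dist (γ t) s ≤ dist (F b) (F s) * t + dist (F b) (F s) * (1 - t) :=
        add_le_add ha hb
    _ = dist (F b) (F s) := by ring

theorem vis_isClosed {n : ℕ} {S : Set (E n)} {F : E n → E n} (hF : Continuous F)
    (hS : IsCompact S) (b : E n) : IsClosed {s | ∃ γ, Vis S F b s γ} := by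
  apply IsSeqClosed.isClosed
  intro u s hu hlim
  choose γ hγ using hu
  set U : Ultrafilter ℕ := hyperfilter ℕ with hU
  have hUle : (U : Filter ℕ) ≤ atTop := Nat.hyperfilter_le_atTop
  have hlim' : Tendsto u U (𝓝 s) := hlim.mono_left hUle
  have hex : ∀ t : ℝ, ∃ g : E n, t ∈ Icc (0 : ℝ) 1 → g ∈ S ∧ Tendsto (fun k => γ k t) U (𝓝 g) := by
    intro t
    by_cases ht : t ∈ Icc (0 : ℝ) 1
    · obtain ⟨g, hg, hg2⟩ := hS.ultrafilter_le_nhds (U.map (fun k => γ k t)) (by
        rw [Ultrafilter.coe_map, le_principal_iff, Filter.mem_map]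
        exact Filter.Eventually.of_forall (fun k => ((hγ k).2.2.1 t ht).1))
      refine ⟨g, fun _ => ⟨hg, ?_⟩⟩
      rw [Ultrafilter.coe_map] at hg2
      exact hg2
    · exact ⟨b, fun h => absurd h ht⟩
  choose g hg using hex
  have hFs : Tendsto (fun k => F (u k)) U (𝓝 (F s)) := (hF.tendsto s).comp hlim'
  refine ⟨g, ?_, ?_, ?_, ?_⟩
  · have h1 := (hg 0 ⟨le_rfl, zero_le_one⟩).2
    have h2 : (fun k => γ k 0) = fun _ => b := by funext k; exact (hγ k).1
    rw [h2] at h1
    exact tendsto_nhds_unique h1 tendsto_const_nhds |>.symm ▸ rfl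
  · have h1 := (hg 1 ⟨zero_le_one, le_rfl⟩).2
    have h2 : (fun k => γ k 1) = u := by funext k; exact (hγ k).2.1
    rw [h2] at h1
    exact tendsto_nhds_unique h1 hlim'
  · intro t ht
    refine ⟨(hg t ht).1, ?_⟩
    have h1 : Tendsto (fun k => F (γ k t)) U (𝓝 (F (g t))) := (hF.tendsto _).comp (hg t ht).2
    have h2 : (fun k => F (γ k t)) = fun k => (AffineMap.lineMap (F b) (F (u k)) t : E n) := by
      funext k; exact ((hγ k).2.2.1 t ht).2
    rw [h2] at h1
    have h3 : Tendsto (fun k => (AffineMap.lineMap (F b) (F (u k)) t : E n)) U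
        (𝓝 (AffineMap.lineMap (F b) (F s) t)) := by
      have h4 : Continuous (fun y : E n => (AffineMap.lineMap (F b) y t : E n)) := by
        simp only [AffineMap.lineMap_apply_module]
        fun_prop
      exact (h4.tendsto (F s)).comp hFs
    exact tendsto_nhds_unique h1 h3
  · intro t ht v hv
    have h1 : Tendsto (fun k => dist (γ k t) (γ k v)) U (𝓝 (dist (g t) (g v))) :=
      (hg t ht).2.dist (hg v hv).2
    have h2 : Tendsto (fun k => dist (F b) (F (u k)) * |t - v|) U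
        (𝓝 (dist (F b) (F s) * |t - v|)) :=
      (tendsto_const_nhds.dist hFs).mul tendsto_const_nhds
    exact le_of_tendsto_of_tendsto' h1 h2 (fun k => (hγ k).2.2.2 t ht v hv)

/-- From a local to a global Lipschitz bound on the unit interval. -/
theorem lip_of_local {n : ℕ} (γ : ℝ → E n) (L τ : ℝ) (hτ : 0 < τ)
    (h : ∀ t ∈ Icc (0 : ℝ) 1, ∀ u ∈ Icc (0 : ℝ) 1, |t - u| < τ → dist (γ t) (γ u) ≤ L * |t - u|) :
    ∀ t ∈ Icc (0 : ℝ) 1, ∀ u ∈ Icc (0 : ℝ) 1, dist (γ t) (γ u) ≤ L * |t - u| := by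
  have key : ∀ t ∈ Icc (0 : ℝ) 1, ∀ u ∈ Icc (0 : ℝ) 1, t ≤ u →
      dist (γ t) (γ u) ≤ L * |t - u| := by
    intro t ht u hu htu
    obtain ⟨N, hN⟩ := exists_nat_gt ((u - t) / τ)
    have hN0 : (0 : ℝ) < N := lt_of_le_of_lt (div_nonneg (by linarith) hτ.le) hN
    set p : ℕ → ℝ := fun i => t + i * ((u - t) / N) with hp
    have hstep : (u - t) / N < τ := by
      rw [div_lt_iff₀ hN0]; rw [div_lt_iff₀ hτ] at hN; linarith
    have hstep0 : 0 ≤ (u - t) / N := div_nonneg (by linarith) hN0.le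
    have hpmem : ∀ i : ℕ, i ≤ N → p i ∈ Icc (0 : ℝ) 1 := by
      intro i hi
      have hi' : (i : ℝ) ≤ N := by exact_mod_cast hi
      have h1 : (i : ℝ) * ((u - t) / N) ≤ u - t := by
        calc (i : ℝ) * ((u - t) / N) ≤ N * ((u - t) / N) :=
              mul_le_mul_of_nonneg_right hi' hstep0
          _ = u - t := by field_simp
      have h2 : 0 ≤ (i : ℝ) * ((u - t) / N) := by positivity
      exact ⟨by simp only [hp]; linarith [ht.1], by simp only [hp]; linarith [hu.2]⟩
    have h0 : p 0 = t := by simp [hp]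
    have h1 : p N = u := by simp only [hp]; field_simp; ring
    calc dist (γ t) (γ u) = dist ((γ ∘ p) 0) ((γ ∘ p) N) := by simp only [Function.comp, h0, h1]
      _ ≤ ∑ i ∈ Finset.range N, dist ((γ ∘ p) i) ((γ ∘ p) (i + 1)) :=
          dist_le_range_sum_dist _ _
      _ ≤ ∑ i ∈ Finset.range N, L * ((u - t) / N) := by
          apply Finset.sum_le_sum
          intro i hi
          have hi' := Finset.mem_range.1 hi
          have hd : |p i - p (i + 1)| = (u - t) / N := by
            have : p i - p (i + 1) = -((u - t) / N) := by simp only [hp]; push_cast; ring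
            rw [this, abs_neg, abs_of_nonneg hstep0]
          have := h (p i) (hpmem i hi'.le) (p (i + 1)) (hpmem (i + 1) hi') (by rw [hd]; exact hstep)
          rw [hd] at this
          exact this
      _ = L * |t - u| := by
          rw [Finset.sum_const, Finset.card_range, nsmul_eq_mul, abs_sub_comm,
            abs_of_nonneg (by linarith)]
          field_simp
  intro t ht u hu
  rcases le_total t u with htu | htu
  · exact key t ht u hu htu
  · rw [dist_comm, abs_sub_comm]; exact key u hu t ht htu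

theorem vis_open {n : ℕ} {S : Set (E n)} {F : E n → E n} {δ : ℝ} (h : Expd S F δ)
    {b s : E n} {γ : ℝ → E n} (hγ : Vis S F b s γ) (ρ : ℝ) (hρ : 0 < ρ)
    (hsub : ∀ t ∈ Icc (0 : ℝ) 1, closedBall (γ t) ρ ⊆ S) :
    ∃ η > 0, ∀ s', dist s' s < η → ∃ γ', Vis S F b s' γ' := by
  obtain ⟨g0, g1, g2, g3⟩ := hγ
  set ρ1 := min ρ (δ / 8) with hρ1
  have hδ := h.pos
  have hρ1pos : 0 < ρ1 := lt_min hρ (by positivity)
  have hρ1a : ρ1 ≤ ρ := min_le_left _ _
  have hρ1b : ρ1 ≤ δ / 8 := min_le_right _ _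
  obtain ⟨η1, hη1, hη1F⟩ := Metric.continuous_iff.1 h.cont s ρ1 hρ1pos
  refine ⟨min η1 ρ1, lt_min hη1 hρ1pos, ?_⟩
  intro s' hs'
  have hs1 : dist s' s < η1 := hs'.trans_le (min_le_left _ _)
  have hs2 : dist s' s < ρ1 := hs'.trans_le (min_le_right _ _)
  have hFs : dist (F s') (F s) < ρ1 := hη1F s' hs1
  have hs'S : s' ∈ S := by
    apply hsub 1 ⟨zero_le_one, le_rfl⟩
    rw [mem_closedBall, g1]; linarith
  set Y : ℝ → E n := fun t => AffineMap.lineMap (F b) (F s') t with hY
  have hYd : ∀ t ∈ Icc (0 : ℝ) 1, dist (Y t) (F (γ t)) = t * dist (F s') (F s) := by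
    intro t ht
    rw [(g2 t ht).2]
    simp only [hY]
    rw [dist_eq_norm, AffineMap.lineMap_apply_module, AffineMap.lineMap_apply_module]
    have : (1 - t) • F b + t • F s' - ((1 - t) • F b + t • F s) = t • (F s' - F s) := by
      rw [smul_sub]; abel
    rw [this, norm_smul, Real.norm_eq_abs, abs_of_nonneg ht.1, dist_eq_norm]
  have hYlt : ∀ t ∈ Icc (0 : ℝ) 1, dist (Y t) (F (γ t)) < ρ1 := by
    intro t ht
    rw [hYd t ht]
    calc t * dist (F s') (F s) ≤ 1 * dist (F s') (F s) :=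
          mul_le_mul_of_nonneg_right ht.2 dist_nonneg
      _ < ρ1 := by rw [one_mul]; exact hFs
  have hex : ∀ t : ℝ, ∃ x : E n, t ∈ Icc (0 : ℝ) 1 → x ∈ S ∧ F x = Y t ∧
      dist x (γ t) ≤ dist (Y t) (F (γ t)) := by
    intro t
    by_cases ht : t ∈ Icc (0 : ℝ) 1
    · have hsb : closedBall (γ t) ρ1 ⊆ S :=
        (closedBall_subset_closedBall hρ1a).trans (hsub t ht)
      obtain ⟨x, hx, hxF, hxd⟩ := h.cover (γ t) ρ1 hρ1pos (by linarith) hsb (Y t) (hYlt t ht)
      exact ⟨x, fun _ => ⟨hsb hx, hxF, hxd⟩⟩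
    · exact ⟨b, fun h => absurd h ht⟩
  choose γ' hγ' using hex
  have hclose : ∀ t ∈ Icc (0 : ℝ) 1, dist (γ' t) (γ t) < ρ1 := fun t ht =>
    ((hγ' t ht).2.2).trans_lt (hYlt t ht)
  have h01 : (0 : ℝ) ∈ Icc (0 : ℝ) 1 := ⟨le_rfl, zero_le_one⟩
  have h11 : (1 : ℝ) ∈ Icc (0 : ℝ) 1 := ⟨zero_le_one, le_rfl⟩
  refine ⟨γ', ?_, ?_, ?_, ?_⟩
  · have h1 := (hγ' 0 h01).2.2
    rw [hYd 0 h01, zero_mul, g0] at h1
    exact dist_le_zero.1 h1
  · have h1 := hclose 1 h11
    rw [g1] at h1
    have h2 : dist (γ' 1) s' < δ := by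
      calc dist (γ' 1) s' ≤ dist (γ' 1) s + dist s' s := dist_triangle_right _ _ _
        _ < δ := by linarith
    have h3 := h.exp (γ' 1) (hγ' 1 h11).1 s' hs'S h2
    have h4 : F (γ' 1) = F s' := by
      rw [(hγ' 1 h11).2.1]; simp [hY]
    rw [h4, dist_self] at h3
    exact dist_le_zero.1 h3
  · intro t ht
    exact ⟨(hγ' t ht).1, (hγ' t ht).2.1⟩
  · set L := dist (F b) (F s) with hL
    have hL0 : 0 ≤ L := dist_nonneg
    apply lip_of_local γ' (dist (F b) (F s')) (δ / (2 * (L + 1))) (by positivity)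
    intro t ht u hu htu
    have h1 : dist (γ t) (γ u) ≤ L * |t - u| := g3 t ht u hu
    have h2 : L * |t - u| ≤ δ / 2 := by
      have h5 : |t - u| * (2 * (L + 1)) < δ := by rwa [lt_div_iff₀ (by positivity)] at htu
      have h6 := abs_nonneg (t - u)
      nlinarith
    have h3 : dist (γ' t) (γ' u) < δ := by
      calc dist (γ' t) (γ' u) ≤ dist (γ' t) (γ t) + dist (γ t) (γ u) + dist (γ u) (γ' u) :=
            dist_triangle4 _ _ _ _
        _ < δ := by
            have ha := hclose t ht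
            have hb := hclose u hu
            rw [dist_comm] at hb
            linarith
    have h4 := h.exp (γ' t) (hγ' t ht).1 (γ' u) (hγ' u hu).1 h3
    rw [(hγ' t ht).2.1, (hγ' u hu).2.1] at h4
    simp only [hY] at h4
    rw [dist_lineMap_lineMap, Real.dist_eq] at h4
    rw [mul_comm]
    exact h4

end Pool.Agent.H881R3.Expand
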