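import Mathlib
import Pool.Agent.H881R3.Expand.Vis

set_option autoImplicit false

open Set Metric Topology Filter
open scoped NNReal

namespace Pool.Agent.H881R3.Expand

/-- The cube `[-1,1]^n`. -/
def cube (n : ℕ) : Set (E n) := {x | ∀ i, |x i| ≤ 1}

theorem abs_apply_sub_le {n : ℕ} (x y : E n) (i : Fin n) : |x i - y i| ≤ dist x y := by
  rw [dist_eq_norm]
  have := PiLp.norm_apply_le (x - y) i
  simpa using this

theorem isCompact_cube (n : ℕ) : IsCompact (cube n) := by
  apply Metric.isCompact_of_isClosed_isBounded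
  · have : cube n = ⋂ i, {x : E n | |x i| ≤ 1} := by ext x; simp [cube]
    rw [this]
    apply isClosed_iInter
    intro i
    exact isClosed_le (by fun_prop) continuous_const
  · rw [isBounded_iff_forall_norm_le]
    refine ⟨Real.sqrt n, fun x hx => ?_⟩
    rw [EuclideanSpace.norm_eq]
    apply Real.sqrt_le_sqrt
    calc ∑ i, ‖x i‖ ^ 2 ≤ ∑ _i : Fin n, (1 : ℝ) := by
          apply Finset.sum_le_sum
          intro i _
          rw [Real.norm_eq_abs]
          have := hx i
          have := abs_nonneg (x i)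
          nlinarith
      _ = n := by simp

theorem closedBall_subset_cube {n : ℕ} (x : E n) (D : ℝ) (h : ∀ i, |x i| + D ≤ 1) :
    closedBall x D ⊆ cube n := by
  intro w hw i
  rw [mem_closedBall] at hw
  have h1 := abs_apply_sub_le w x i
  have h2 : |w i| ≤ |w i - x i| + |x i| := by
    calc |w i| = |(w i - x i) + x i| := by rw [sub_add_cancel]
      _ ≤ _ := abs_add_le _ _
  have := h i
  linarith

/-- The image point of `x` is at distance at least `dist (x, ∂ cube)` from the sphere. -/
theorem inradius {n : ℕ} (hn : 0 < n) {F : E n → E n} {δ : ℝ} (h : Expd (cube n) F δ) (z : E n)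
    (r : ℝ) (hr : ∀ x ∈ cube n, dist (F x) z ≤ r) (x : E n) (D : ℝ) (hD : 0 ≤ D)
    (hx : ∀ i, |x i| + D ≤ 1) : dist (F x) z + D ≤ r := by
  have hsub := closedBall_subset_cube x D hx
  by_contra hcon
  push Not at hcon
  set d := dist (F x) z with hd
  have hd0 : 0 ≤ d := dist_nonneg
  have hxr : d ≤ r := hr x (hsub (mem_closedBall_self hD))
  have hDpos : 0 < D := by linarith
  obtain ⟨ρ, hρ1, hρ2⟩ : ∃ ρ, r - d < ρ ∧ ρ < D := exists_between (by linarith)
  have hρ0 : 0 ≤ ρ := by linarith
  obtain ⟨y, hy1, hy2⟩ : ∃ y : E n, dist y (F x) = ρ ∧ dist y z = d + ρ := by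
    rcases eq_or_lt_of_le hd0 with h0 | h0
    · refine ⟨F x + ρ • EuclideanSpace.single ⟨0, hn⟩ 1, ?_, ?_⟩
      · rw [dist_eq_norm, add_sub_cancel_left, norm_smul]; simp [abs_of_nonneg hρ0]
      · have : F x = z := dist_eq_zero.1 h0.symm
        rw [this, dist_eq_norm, add_sub_cancel_left, norm_smul]
        simp [abs_of_nonneg hρ0, ← h0]
    · refine ⟨F x + (ρ / d) • (F x - z), ?_, ?_⟩
      · rw [dist_eq_norm, add_sub_cancel_left, norm_smul, ← dist_eq_norm, ← hd, Real.norm_eq_abs,
          abs_of_nonneg (by positivity), div_mul_cancel₀ _ h0.ne']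
      · have : F x + (ρ / d) • (F x - z) - z = (1 + ρ / d) • (F x - z) := by
          rw [add_smul, one_smul]; abel
        rw [dist_eq_norm, this, norm_smul, ← dist_eq_norm, ← hd, Real.norm_eq_abs,
          abs_of_nonneg (by positivity)]
        field_simp
  obtain ⟨a, ha, haF⟩ := h.reach x D hsub y (by rw [hy1]; exact hρ2)
  rw [hy1] at ha
  have hacube : a ∈ cube n := hsub (by rw [mem_closedBall]; linarith)
  have := hr a hacube
  rw [haF, hy2] at this
  linarith

/-- First exit along a segment: either the end point is visible, or some visible point of the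
segment has a path touching the boundary of the cube. -/
theorem exit {n : ℕ} {F : E n → E n} {δ : ℝ} (h : Expd (cube n) F δ) (b c : E n)
    (hb : b ∈ cube n) :
    (∃ γ, Vis (cube n) F b c γ) ∨
      ∃ l ∈ Ico (0 : ℝ) 1, ∃ γ, Vis (cube n) F b (AffineMap.lineMap b c l) γ ∧
        ∃ t ∈ Icc (0 : ℝ) 1, ∃ i, |γ t i| = 1 := by
  by_contra hcon
  push Not at hcon
  obtain ⟨hc1, hc2⟩ := hcon
  set T : Set ℝ := (fun l : ℝ => (AffineMap.lineMap b c l : E n)) ⁻¹' {s | ∃ γ, Vis (cube n) F b s γ}
    with hT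
  have hlc : Continuous (fun t : ℝ => (AffineMap.lineMap b c t : E n)) :=
    AffineMap.lineMap_continuous
  have hTc : IsClosed T := (vis_isClosed h.cont (isCompact_cube n) b).preimage hlc
  have h0 : (0 : ℝ) ∈ T := by
    show ∃ γ, Vis (cube n) F b (AffineMap.lineMap b c (0 : ℝ)) γ
    rw [AffineMap.lineMap_apply_zero]
    refine ⟨fun _ => b, rfl, rfl, fun t _ => ⟨hb, by simp⟩, fun t _ u _ => by simp⟩
  have hsub : Icc (0 : ℝ) 1 ⊆ T := by
    apply (hTc.inter isClosed_Icc).Icc_subset_of_forall_mem_nhdsWithin h0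
    rintro l ⟨⟨γ, hγ⟩, hl⟩
    have hlt := hc2 l hl γ hγ
    -- uniform distance to the boundary
    have hγc : ContinuousOn γ (Icc (0 : ℝ) 1) := by
      have : LipschitzOnWith (Real.toNNReal (dist (F b) (F (AffineMap.lineMap b c l)))) γ
          (Icc (0 : ℝ) 1) := by
        apply LipschitzOnWith.of_dist_le_mul
        intro t ht u hu
        rw [Real.coe_toNNReal _ dist_nonneg, Real.dist_eq]
        exact hγ.2.2.2 t ht u hu
      exact this.continuousOn
    obtain ⟨tm, htm, hmax⟩ := isCompact_Icc.exists_isMaxOn (⟨0, le_rfl, zero_le_one⟩ :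
      (Icc (0 : ℝ) 1).Nonempty) (f := fun t => ‖WithLp.ofLp (γ t)‖)
      ((PiLp.continuous_ofLp 2 _).comp_continuousOn hγc).norm
    have hM : ‖WithLp.ofLp (γ tm)‖ < 1 := by
      rw [pi_norm_lt_iff zero_lt_one]
      intro i
      rw [Real.norm_eq_abs]
      exact lt_of_le_of_ne ((hγ.2.2.1 tm htm).1 i) (hlt tm htm i)
    obtain ⟨η, hη, hηv⟩ := vis_open h hγ (1 - ‖WithLp.ofLp (γ tm)‖) (by linarith) (by
      intro t ht
      apply closedBall_subset_cube
      intro i
      have h1 : ‖WithLp.ofLp (γ t)‖ ≤ ‖WithLp.ofLp (γ tm)‖ := hmax ht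
      have h2 : ‖(WithLp.ofLp (γ t)) i‖ ≤ ‖WithLp.ofLp (γ t)‖ := norm_le_pi_norm _ i
      rw [Real.norm_eq_abs] at h2
      linarith)
    have hnb : (fun l' : ℝ => (AffineMap.lineMap b c l' : E n)) ⁻¹'
        ball (AffineMap.lineMap b c l) η ∈ 𝓝 l :=
      hlc.continuousAt (ball_mem_nhds _ hη)
    apply mem_nhdsWithin_of_mem_nhds
    exact Filter.mem_of_superset hnb (fun l' hl' => hηv _ hl')
  have h1 : (1 : ℝ) ∈ T := hsub ⟨zero_le_one, le_rfl⟩
  obtain ⟨γ, hγ⟩ := h1
  have hγ' : Vis (cube n) F b (AffineMap.lineMap b c (1 : ℝ)) γ := hγ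
  rw [AffineMap.lineMap_apply_one] at hγ'
  exact hc1 γ hγ'

/-- Reflection of a point in the hyperplane `x i = η`. -/
theorem reflect_bound {n : ℕ} (q b s : E n) (i : Fin n) :
    Real.sqrt ((b i + s i - 2 * q i) ^ 2 + ∑ k ∈ Finset.univ.erase i, (b k - s k) ^ 2) ≤
      dist q b + dist q s := by
  set s' : E n := s + (2 * (q i - s i)) • EuclideanSpace.single i 1 with hs'
  have hs'i : s' i = 2 * q i - s i := by simp [hs']; ring
  have hs'k : ∀ k, k ≠ i → s' k = s k := by intro k hk; simp [hs', hk]
  have h1 : dist q s' = dist q s := by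
    rw [EuclideanSpace.dist_eq, EuclideanSpace.dist_eq]
    congr 1
    apply Finset.sum_congr rfl
    intro k _
    by_cases hk : k = i
    · subst hk
      rw [hs'i, Real.dist_eq, Real.dist_eq, sq_abs, sq_abs]; ring
    · rw [hs'k k hk]
  have h2 : dist b s' = Real.sqrt ((b i + s i - 2 * q i) ^ 2 +
      ∑ k ∈ Finset.univ.erase i, (b k - s k) ^ 2) := by
    rw [EuclideanSpace.dist_eq]
    congr 1
    rw [← Finset.add_sum_erase _ _ (Finset.mem_univ i)]
    congr 1
    · rw [hs'i, Real.dist_eq, sq_abs]; ring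
    · apply Finset.sum_congr rfl
      intro k hk
      rw [hs'k k (Finset.ne_of_mem_erase hk), Real.dist_eq, sq_abs]
  rw [← h2, ← h1, dist_comm q b]
  exact dist_triangle _ _ _

/-- The core estimate. -/
theorem core {n : ℕ} (hn : 0 < n) {F : E n → E n} {δ : ℝ} (h : Expd (cube n) F δ) (z : E n)
    (r : ℝ) (hr : ∀ x ∈ cube n, dist (F x) z ≤ r) (b : E n) (μ : ℝ) (hμ : μ < 1)
    (hb : ∀ i, |b i| ≤ μ) (K : ℝ)
    (hK : ∀ l ∈ Icc (0 : ℝ) 1, K ≤ Real.sqrt ((2 - l) ^ 2 + ((n : ℝ) - 1) * l ^ 2) + (1 - l)) :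
    min K (3 * (1 - μ)) ≤ r + dist (F b) z := by
  classical
  have hμ0 : 0 ≤ μ := (abs_nonneg _).trans (hb ⟨0, hn⟩)
  have hbc : b ∈ cube n := fun i => (hb i).trans hμ.le
  set c : E n := WithLp.toLp 2 (fun i => if b i ≤ 0 then (1 : ℝ) else -1) with hc
  have hci : ∀ i, c i = if b i ≤ 0 then (1 : ℝ) else -1 := fun i => rfl
  have hcsq : ∀ i, c i * c i = 1 := by
    intro i; rw [hci]; split_ifs <;> norm_num
  have hcb : ∀ i, c i * b i = -|b i| := by
    intro i; rw [hci]; split_ifs with h1
    · rw [abs_of_nonpos h1]; ring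
    · rw [abs_of_pos (not_le.1 h1)]; ring
  have hcabs : ∀ i, |c i| = 1 := by
    intro i; rw [hci]; split_ifs <;> simp
  have hcc : c ∈ cube n := fun i => (hcabs i).le
  have hdiff : ∀ i, (c i - b i) ^ 2 = (1 + |b i|) ^ 2 := by
    intro i
    have h1 := hcsq i
    have h2 := hcb i
    have h3 := sq_abs (b i)
    nlinarith
  have hdiff1 : ∀ i, 1 ≤ (c i - b i) ^ 2 := by
    intro i; rw [hdiff]; have := abs_nonneg (b i); nlinarith
  rcases exit h b c hbc with ⟨γ, hγ⟩ | ⟨l, hl, γ, hγ, t, ht, i, hti⟩
  · -- the corner is visible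
    apply (min_le_left _ _).trans
    have h1 := hγ.dist_le 1 ⟨zero_le_one, le_rfl⟩
    rw [hγ.2.1, dist_self, add_zero] at h1
    have h2 : dist (F b) (F c) ≤ dist (F b) z + dist (F c) z := dist_triangle_right _ _ _
    have h3 := hr c hcc
    have h4 : K ≤ Real.sqrt n := by
      have := hK 1 ⟨zero_le_one, le_rfl⟩
      have e : (2 - (1:ℝ)) ^ 2 + ((n : ℝ) - 1) * 1 ^ 2 = n := by ring
      rw [e] at this
      linarith
    have h5 : Real.sqrt n ≤ dist c b := by
      rw [EuclideanSpace.dist_eq]
      apply Real.sqrt_le_sqrt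
      calc (n : ℝ) = ∑ _i : Fin n, (1 : ℝ) := by simp
        _ ≤ ∑ i, dist (c i) (b i) ^ 2 := by
            apply Finset.sum_le_sum
            intro i _
            rw [Real.dist_eq, sq_abs]
            exact hdiff1 i
    linarith
  · -- a touching path
    set s : E n := AffineMap.lineMap b c l with hs
    have hsi : ∀ k, s k = b k + l * (c k - b k) := by
      intro k
      rw [hs, AffineMap.lineMap_apply_module]
      simp
      ring
    set q := γ t with hq
    have hL := hγ.dist_le t ht
    rw [← hq] at hL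
    -- the distance of s to the boundary
    set D := min (1 - l) (1 - μ + l) with hD
    have hD0 : 0 ≤ D := le_min (by linarith [hl.2]) (by linarith [hl.1])
    have hsD : ∀ k, |s k| + D ≤ 1 := by
      intro k
      have e1 : |s k| = |c k * s k| := by rw [abs_mul, hcabs, one_mul]
      have e2 : c k * s k = -|b k| + l * (1 + |b k|) := by
        rw [hsi]
        have h1 := hcsq k
        have h2 := hcb k
        calc c k * (b k + l * (c k - b k)) = c k * b k + l * (c k * c k - c k * b k) := by ring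
          _ = _ := by rw [h1, h2]; ring
      rw [e1, e2]
      have h3 := hb k
      have h4 := abs_nonneg (b k)
      have h5 := hl.1
      have h6 := hl.2
      have hD1 : D ≤ 1 - l := min_le_left _ _
      have hD2 : D ≤ 1 - μ + l := min_le_right _ _
      have h7 : |(-|b k| + l * (1 + |b k|))| ≤ 1 - D := by
        rw [abs_le]
        constructor
        · nlinarith
        · nlinarith
      linarith
    have hin := inradius hn h z r hr s D hD0 hsD
    have htri : dist (F b) (F s) ≤ dist (F b) z + dist (F s) z := dist_triangle_right _ _ _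
    have hmain : dist q b + dist q s + D ≤ r + dist (F b) z := by linarith
    have hrefl := reflect_bound q b s i
    have hsum : ∑ k ∈ Finset.univ.erase i, (b k - s k) ^ 2 ≥ ((n : ℝ) - 1) * l ^ 2 := by
      have h1 : ∑ k ∈ Finset.univ.erase i, (b k - s k) ^ 2 ≥
          ∑ _k ∈ (Finset.univ.erase i : Finset (Fin n)), l ^ 2 := by
        apply Finset.sum_le_sum
        intro k _
        have : (b k - s k) ^ 2 = l ^ 2 * (c k - b k) ^ 2 := by rw [hsi]; ring
        rw [this]
        have := hdiff1 k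
        nlinarith [sq_nonneg l]
      have h2 : ∑ _k ∈ (Finset.univ.erase i : Finset (Fin n)), l ^ 2 = ((n : ℝ) - 1) * l ^ 2 := by
        rw [Finset.sum_const, Finset.card_erase_of_mem (Finset.mem_univ i), Finset.card_univ,
          Fintype.card_fin, nsmul_eq_mul, Nat.cast_sub hn]
        simp
      linarith
    have hqi : |q i| = 1 := hti
    have hqi2 : q i = c i ∨ q i = -c i := by
      rcases abs_eq (zero_le_one (α := ℝ)) |>.1 hqi with h1 | h1 <;>
      rcases abs_eq (zero_le_one (α := ℝ)) |>.1 (hcabs i) with h2 | h2 <;>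
      rw [h1, h2] <;> norm_num
    have hn1 : (0:ℝ) ≤ (n : ℝ) - 1 := by
      have : (1 : ℝ) ≤ n := by exact_mod_cast hn
      linarith
    rcases hqi2 with hqc | hqc
    · -- positive facet
      have e1 : (b i + s i - 2 * q i) ^ 2 = (2 - l) ^ 2 * (c i - b i) ^ 2 := by
        rw [hqc, hsi]; ring
      have h2 : (2 - l) ^ 2 ≤ (b i + s i - 2 * q i) ^ 2 := by
        rw [e1]; have := hdiff1 i; nlinarith [sq_nonneg (2 - l)]
      have h3 : Real.sqrt ((2 - l) ^ 2 + ((n : ℝ) - 1) * l ^ 2) ≤ dist q b + dist q s :=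
        (Real.sqrt_le_sqrt (by linarith)).trans hrefl
      rcases min_choice (1 - l) (1 - μ + l) with hm | hm
      · apply (min_le_left _ _).trans
        have := hK l ⟨hl.1, hl.2.le⟩
        rw [← hD] at hm
        linarith
      · apply (min_le_right _ _).trans
        rw [← hD] at hm
        have h4 : 2 - l ≤ Real.sqrt ((2 - l) ^ 2 + ((n : ℝ) - 1) * l ^ 2) := by
          apply Real.le_sqrt_of_sq_le
          nlinarith [sq_nonneg l]
        linarith
    · -- negative facet
      apply (min_le_right _ _).trans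
      have e1 : |b i + s i - 2 * q i| = 2 - |b i| + (-|b i| + l * (1 + |b i|)) := by
        have h1 := hcsq i
        have h2 := hcb i
        have e2 : c i * (b i + s i - 2 * q i) = 2 - |b i| + (-|b i| + l * (1 + |b i|)) := by
          rw [hqc, hsi]
          calc c i * (b i + (b i + l * (c i - b i)) - 2 * -c i)
              = 2 * (c i * c i) + c i * b i + (c i * b i + l * (c i * c i - c i * b i)) := by ring
            _ = _ := by rw [h1, h2]; ring
        have h3 : |b i + s i - 2 * q i| = |c i * (b i + s i - 2 * q i)| := by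
          rw [abs_mul, hcabs, one_mul]
        rw [h3, e2, abs_of_nonneg]
        have h4 := hb i
        have h5 := abs_nonneg (b i)
        have h6 := hl.1
        nlinarith
      have h2 : |b i + s i - 2 * q i| ≤ dist q b + dist q s := by
        refine le_trans ?_ hrefl
        rw [← Real.sqrt_sq_eq_abs]
        apply Real.sqrt_le_sqrt
        have : 0 ≤ ∑ k ∈ Finset.univ.erase i, (b k - s k) ^ 2 :=
          Finset.sum_nonneg (fun k _ => sq_nonneg _)
        linarith
      have h3 := hb i
      have h4 := abs_nonneg (b i)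
      have h5 := hl.1
      have h6 := hl.2
      have h7 : 2 * (1 - μ) + l ≤ dist q b + dist q s := by nlinarith
      rcases min_choice (1 - l) (1 - μ + l) with hm | hm
      · rw [← hD] at hm; linarith
      · rw [← hD] at hm; linarith

end Pool.Agent.H881R3.Expand
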