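import Mathlib
import Pool.Agent.H881R3.Expand.Core

set_option autoImplicit false

open Set Metric Topology Filter
open scoped NNReal

namespace Pool.Agent.H881R3.Expand

theorem vis_refl {n : ℕ} {S : Set (E n)} {F : E n → E n} {b : E n} (hb : b ∈ S) :
    Vis S F b b (fun _ => b) :=
  ⟨rfl, rfl, fun t _ => ⟨hb, by simp⟩, fun t _ u _ => by simp⟩

theorem Vis.mem {n : ℕ} {S : Set (E n)} {F : E n → E n} {b s : E n} {γ : ℝ → E n}
    (h : Vis S F b s γ) : s ∈ S := by
  have := (h.2.2.1 1 ⟨zero_le_one, le_rfl⟩).1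
  rwa [h.2.1] at this

theorem Vis.symm {n : ℕ} {S : Set (E n)} {F : E n → E n} {b s : E n} {γ : ℝ → E n}
    (h : Vis S F b s γ) : Vis S F s b (fun t => γ (1 - t)) := by
  obtain ⟨h0, h1, h2, h3⟩ := h
  refine ⟨by simpa using h1, by simpa using h0, ?_, ?_⟩
  · intro t ht
    have ht' : 1 - t ∈ Icc (0 : ℝ) 1 := ⟨by linarith [ht.2], by linarith [ht.1]⟩
    refine ⟨(h2 _ ht').1, ?_⟩
    show F (γ (1 - t)) = AffineMap.lineMap (F s) (F b) t
    rw [(h2 _ ht').2, AffineMap.lineMap_apply_one_sub]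
  · intro t ht u hu
    have ht' : 1 - t ∈ Icc (0 : ℝ) 1 := ⟨by linarith [ht.2], by linarith [ht.1]⟩
    have hu' : 1 - u ∈ Icc (0 : ℝ) 1 := ⟨by linarith [hu.2], by linarith [hu.1]⟩
    have := h3 _ ht' _ hu'
    rw [dist_comm (F s)]
    have e : |1 - t - (1 - u)| = |t - u| := by rw [abs_sub_comm]; congr 1; ring
    rwa [e] at this

theorem Vis.unique {n : ℕ} {S : Set (E n)} {F : E n → E n} {δ : ℝ} (h : Expd S F δ)
    {b s : E n} {γ γ' : ℝ → E n} (h1 : Vis S F b s γ) (h2 : Vis S F b s γ') :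
    ∀ t ∈ Icc (0 : ℝ) 1, γ t = γ' t := by
  set L := dist (F b) (F s) with hL
  have hL0 : 0 ≤ L := dist_nonneg
  have hδ := h.pos
  set τ := δ / (2 * L + 1) with hτ
  have hτ0 : 0 < τ := by positivity
  have hτL : 2 * L * τ < δ := by
    have : τ * (2 * L + 1) = δ := by rw [hτ]; field_simp
    linarith
  have key : ∀ k : ℕ, ∀ t ∈ Icc (0 : ℝ) 1, t ≤ k * τ → γ t = γ' t := by
    intro k
    induction k with
    | zero =>
      intro t ht htk
      have : t = 0 := le_antisymm (by simpa using htk) ht.1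
      rw [this, h1.1, h2.1]
    | succ k ih =>
      intro t ht htk
      set u := max 0 (t - τ) with hu
      have hu01 : u ∈ Icc (0:ℝ) 1 := ⟨le_max_left _ _, max_le zero_le_one (by linarith [ht.2])⟩
      have huk : u ≤ k * τ := max_le (by positivity) (by push_cast at htk; linarith)
      have hut : u ≤ t := max_le ht.1 (by linarith)
      have htu : t - u ≤ τ := by have := le_max_right 0 (t - τ); linarith
      have hequ := ih u hu01 huk
      have ha := h1.2.2.2 t ht u hu01
      have hb := h2.2.2.2 t ht u hu01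
      rw [abs_of_nonneg (by linarith)] at ha hb
      have hd : dist (γ t) (γ' t) < δ := by
        calc dist (γ t) (γ' t) ≤ dist (γ t) (γ u) + dist (γ' t) (γ' u) := by
              rw [hequ]; exact dist_triangle_right _ _ _
          _ ≤ L * (t - u) + L * (t - u) := add_le_add ha hb
          _ ≤ 2 * L * τ := by nlinarith
          _ < δ := hτL
      have he := h.exp _ (h1.2.2.1 t ht).1 _ (h2.2.2.1 t ht).1 hd
      rw [(h1.2.2.1 t ht).2, (h2.2.2.1 t ht).2, dist_self] at he
      exact dist_le_zero.1 he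
  intro t ht
  obtain ⟨k, hk⟩ := exists_nat_ge (1 / τ)
  exact key k t ht (by rw [div_le_iff₀ hτ0] at hk; linarith [ht.2])

theorem vis_limit {n : ℕ} {S : Set (E n)} {F : E n → E n} (hF : Continuous F)
    (hS : IsCompact S) (b : E n) (u : ℕ → E n) (s : E n) (γ : ℕ → ℝ → E n)
    (hγ : ∀ k, Vis S F b (u k) (γ k)) (U : Ultrafilter ℕ) (hlim' : Tendsto u U (𝓝 s)) :
    ∃ g, Vis S F b s g ∧ ∀ t ∈ Icc (0 : ℝ) 1, Tendsto (fun k => γ k t) U (𝓝 (g t)) := by
  have hex : ∀ t : ℝ, ∃ g : E n, t ∈ Icc (0 : ℝ) 1 → g ∈ S ∧ Tendsto (fun k => γ k t) U (𝓝 g) := by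
    intro t
    by_cases ht : t ∈ Icc (0 : ℝ) 1
    · obtain ⟨g, hg, hg2⟩ := hS.ultrafilter_le_nhds (U.map (fun k => γ k t)) (by
        rw [Ultrafilter.coe_map, le_principal_iff, Filter.mem_map]
        exact Filter.Eventually.of_forall (fun k => ((hγ k).2.2.1 t ht).1))
      refine ⟨g, fun _ => ⟨hg, ?_⟩⟩
      rw [Ultrafilter.coe_map] at hg2
      exact hg2
    · exact ⟨b, fun h => absurd h ht⟩
  choose g hg using hex
  have hFs : Tendsto (fun k => F (u k)) U (𝓝 (F s)) := (hF.tendsto s).comp hlim'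
  refine ⟨g, ⟨?_, ?_, ?_, ?_⟩, fun t ht => (hg t ht).2⟩
  · have h1 := (hg 0 ⟨le_rfl, zero_le_one⟩).2
    have h2 : (fun k => γ k 0) = fun _ => b := by funext k; exact (hγ k).1
    rw [h2] at h1
    exact tendsto_nhds_unique h1 tendsto_const_nhds |>.symm ▸ rfl
  · have h1 := (hg 1 ⟨zero_le_one, le_rfl⟩).2
    have h2 : (fun k => γ k 1) = u := by funext k; exact (hγ k).2.1
    rw [h2] at h1
    exact tendsto_nhds_unique h1 hlim'
  · intro t ht
    refine ⟨(hg t ht).1, ?_⟩
    have h1 : Tendsto (fun k => F (γ k t)) U (𝓝 (F (g t))) := (hF.tendsto _).comp (hg t ht).2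
    have h2 : (fun k => F (γ k t)) = fun k => (AffineMap.lineMap (F b) (F (u k)) t : E n) := by
      funext k; exact ((hγ k).2.2.1 t ht).2
    rw [h2] at h1
    have h3 : Tendsto (fun k => (AffineMap.lineMap (F b) (F (u k)) t : E n)) U
        (𝓝 (AffineMap.lineMap (F b) (F s) t)) := by
      have h4 : Continuous (fun y : E n => (AffineMap.lineMap (F b) y t : E n)) := by
        simp only [AffineMap.lineMap_apply_module]
        fun_prop
      exact (h4.tendsto (F s)).comp hFs
    exact tendsto_nhds_unique h1 h3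
  · intro t ht v hv
    have h1 : Tendsto (fun k => dist (γ k t) (γ k v)) U (𝓝 (dist (g t) (g v))) :=
      (hg t ht).2.dist (hg v hv).2
    have h2 : Tendsto (fun k => dist (F b) (F (u k)) * |t - v|) U
        (𝓝 (dist (F b) (F s) * |t - v|)) :=
      (tendsto_const_nhds.dist hFs).mul tendsto_const_nhds
    exact le_of_tendsto_of_tendsto' h1 h2 (fun k => (hγ k).2.2.2 t ht v hv)

theorem touch_isClosed {n : ℕ} {S : Set (E n)} {F : E n → E n} (hF : Continuous F)
    (hS : IsCompact S) (b : E n) (P : Set (E n)) (hP : IsClosed P) :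
    IsClosed {s | ∃ γ, Vis S F b s γ ∧ ∃ t ∈ Icc (0 : ℝ) 1, γ t ∈ P} := by
  apply IsSeqClosed.isClosed
  intro u s hu hlim
  choose γ hγ τ hτ hP' using hu
  set U : Ultrafilter ℕ := hyperfilter ℕ with hU
  have hUle : (U : Filter ℕ) ≤ atTop := Nat.hyperfilter_le_atTop
  have hlim' : Tendsto u U (𝓝 s) := hlim.mono_left hUle
  obtain ⟨g, hg, hgl⟩ := vis_limit hF hS b u s γ hγ U hlim'
  obtain ⟨t, ht, hτt⟩ := (isCompact_Icc (a := (0 : ℝ)) (b := 1)).ultrafilter_le_nhds (U.map τ) (by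
    rw [Ultrafilter.coe_map, le_principal_iff, Filter.mem_map]
    exact Filter.Eventually.of_forall hτ)
  rw [Ultrafilter.coe_map] at hτt
  have hτt' : Tendsto τ U (𝓝 t) := hτt
  refine ⟨g, hg, t, ht, ?_⟩
  have hd : Tendsto (fun k => dist (γ k (τ k)) (γ k t)) U (𝓝 0) := by
    have h1 : Tendsto (fun k => dist (F b) (F (u k)) * |τ k - t|) U
        (𝓝 (dist (F b) (F s) * |t - t|)) :=
      (tendsto_const_nhds.dist ((hF.tendsto s).comp hlim')).mul ((hτt'.sub_const t).abs)
    rw [sub_self, abs_zero, mul_zero] at h1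
    exact squeeze_zero (fun _ => dist_nonneg) (fun k => (hγ k).2.2.2 _ (hτ k) _ ht) h1
  have hlim2 : Tendsto (fun k => γ k (τ k)) U (𝓝 (g t)) :=
    (tendsto_iff_of_dist hd).2 (hgl t ht)
  exact hP.mem_of_tendsto hlim2 (Eventually.of_forall hP')

/-- A Lipschitz path read at different times in the different coordinates. -/
theorem tv {n : ℕ} (γ : ℝ → E n) (L : ℝ) (hL : 0 ≤ L)
    (hγ : ∀ t u : ℝ, dist (γ t) (γ u) ≤ L * |t - u|) (T : Fin n → ℝ)
    (hT : ∀ i, T i ∈ Icc (0 : ℝ) 1) :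
    Real.sqrt (∑ i, (γ (T i) i - γ 0 i) ^ 2) ≤ L := by
  classical
  have hγc : Continuous γ := by
    have : LipschitzWith (Real.toNNReal L) γ := LipschitzWith.of_dist_le_mul (fun t u => by
      rw [Real.coe_toNNReal _ hL, Real.dist_eq]; exact hγ t u)
    exact this.continuous
  set Φ : ℝ → E n := fun t => WithLp.toLp 2 (fun i => γ (min t (T i)) i) with hΦ
  have hΦi : ∀ t i, Φ t i = γ (min t (T i)) i := fun t i => rfl
  have hΦc : Continuous Φ := by
    apply (PiLp.continuous_toLp 2 _).comp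
    apply continuous_pi
    intro i
    fun_prop
  have hclosed : IsClosed ({t : ℝ | dist (Φ t) (Φ 0) ≤ L * t} ∩ Icc 0 1) :=
    (isClosed_le (by fun_prop) (by fun_prop)).inter isClosed_Icc
  have hsub : Icc (0 : ℝ) 1 ⊆ {t : ℝ | dist (Φ t) (Φ 0) ≤ L * t} := by
    apply hclosed.Icc_subset_of_forall_mem_nhdsWithin
    · simp
    · rintro t ⟨ht, ht01⟩
      have hev : ∀ᶠ u in 𝓝[>] t, ∀ i, t < T i → u < T i := by
        rw [Filter.eventually_all]
        intro i
        by_cases hi : t < T i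
        · have := mem_nhdsWithin_of_mem_nhds (t := Ioi t) (Iio_mem_nhds hi)
          filter_upwards [this] with u hu _ using hu
        · exact Eventually.of_forall (fun u h => absurd h hi)
      filter_upwards [hev, self_mem_nhdsWithin] with u hu hut
      have hut' : t < u := hut
      have hstep : dist (Φ u) (Φ t) ≤ dist (γ u) (γ t) := by
        rw [EuclideanSpace.dist_eq, EuclideanSpace.dist_eq]
        apply Real.sqrt_le_sqrt
        apply Finset.sum_le_sum
        intro i _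
        rw [hΦi u i, hΦi t i]
        by_cases hi : t < T i
        · rw [min_eq_left (hu i hi).le, min_eq_left hi.le]
        · push Not at hi
          rw [min_eq_right hi, min_eq_right (hi.trans hut'.le), dist_self, zero_pow two_ne_zero]
          positivity
      have h2 := hγ u t
      rw [abs_of_pos (by linarith)] at h2
      show dist (Φ u) (Φ 0) ≤ L * u
      calc dist (Φ u) (Φ 0) ≤ dist (Φ u) (Φ t) + dist (Φ t) (Φ 0) := dist_triangle _ _ _
        _ ≤ L * (u - t) + L * t := add_le_add (hstep.trans h2) ht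
        _ = L * u := by ring
  have h1 := hsub (⟨zero_le_one, le_rfl⟩ : (1 : ℝ) ∈ Icc (0 : ℝ) 1)
  simp only [mem_ofPred_eq, mul_one] at h1
  rw [EuclideanSpace.dist_eq] at h1
  have e : ∑ i, (γ (T i) i - γ 0 i) ^ 2 = ∑ i, dist (Φ 1 i) (Φ 0 i) ^ 2 := by
    apply Finset.sum_congr rfl
    intro i _
    rw [hΦi 1 i, hΦi 0 i, min_eq_right (hT i).2, min_eq_left (hT i).1, Real.dist_eq, sq_abs]
  rw [e]
  exact h1

/-- A ball inside `S` lifts all straight segments of the image starting at the image of its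
centre and shorter than its radius. -/
theorem Expd.reachVis {n : ℕ} {S : Set (E n)} {F : E n → E n} {δ : ℝ} (h : Expd S F δ)
    (hS : IsCompact S) (x : E n) (ρ : ℝ) (hsub : closedBall x ρ ⊆ S) (y : E n)
    (hy : dist y (F x) < ρ) : ∃ a γ, Vis S F x a γ ∧ F a = y := by
  set D := dist y (F x) with hD
  have hD0 : 0 ≤ D := dist_nonneg
  set V : Set (E n) := {s | ∃ γ, Vis S F x s γ} with hV
  have hVc : IsCompact V := by
    apply hS.of_isClosed_subset (vis_isClosed h.cont hS x)
    rintro s ⟨γ, hγ⟩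
    exact hγ.mem
  have hlc : Continuous (fun t : ℝ => (AffineMap.lineMap (F x) y t : E n)) :=
    AffineMap.lineMap_continuous
  set K : Set (ℝ × E n) := {p | p.1 ∈ Icc (0 : ℝ) 1 ∧ p.2 ∈ V ∧
    F p.2 = AffineMap.lineMap (F x) y p.1} with hK
  have hKc : IsCompact K := by
    refine (isCompact_Icc.prod hVc).of_isClosed_subset
      (s := Icc (0 : ℝ) 1 ×ˢ V) (t := K) ?_ ?_
    · have e : K = (Prod.fst ⁻¹' Icc (0 : ℝ) 1) ∩ ((Prod.snd ⁻¹' V) ∩
        {p | F p.2 = AffineMap.lineMap (F x) y p.1}) := by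
        ext p; simp [hK]
      rw [e]
      refine (isClosed_Icc.preimage continuous_fst).inter
        ((hVc.isClosed.preimage continuous_snd).inter ?_)
      exact isClosed_eq (h.cont.comp continuous_snd) (hlc.comp continuous_fst)
    · rintro p ⟨h1, h2, -⟩
      exact ⟨h1, h2⟩
  set T : Set ℝ := Prod.fst '' K with hT
  have hTc : IsClosed T := (hKc.image continuous_fst).isClosed
  have hxS : x ∈ S := hsub (mem_closedBall_self (by linarith))
  have h0 : (0 : ℝ) ∈ T := by
    refine ⟨(0, x), ⟨⟨le_rfl, zero_le_one⟩, ⟨_, vis_refl hxS⟩, by simp⟩, rfl⟩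
  have hsub2 : Icc (0 : ℝ) 1 ⊆ T := by
    apply (hTc.inter isClosed_Icc).Icc_subset_of_forall_mem_nhdsWithin h0
    rintro t ⟨⟨⟨t', a⟩, ⟨-, ⟨γ, hγ⟩, haF⟩, ht'⟩, ht0, ht1⟩
    simp only at ht' haF
    subst ht'
    have hlt : t' * D < ρ := by
      calc t' * D ≤ 1 * D := mul_le_mul_of_nonneg_right ht1.le hD0
        _ < ρ := by rw [one_mul]; exact hy
    have hFa : dist (F x) (F a) = t' * D := by
      have : dist (AffineMap.lineMap (F x) y (0:ℝ) : E n) (AffineMap.lineMap (F x) y t') = t' * D := by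
        rw [dist_lineMap_lineMap, Real.dist_eq, zero_sub, abs_neg, abs_of_nonneg ht0, dist_comm (F x) y]
      rw [AffineMap.lineMap_apply_zero, ← haF] at this
      exact this
    obtain ⟨η0, hη0, hvis⟩ := vis_open h hγ (ρ - t' * D) (by linarith) (by
      intro u hu w hw
      apply hsub
      have h1 := hγ.2.2.2 u hu 0 ⟨le_rfl, zero_le_one⟩
      rw [hγ.1, sub_zero, abs_of_nonneg hu.1, hFa] at h1
      rw [mem_closedBall] at hw ⊢
      have h2 : t' * D * u ≤ t' * D := by
        have : 0 ≤ t' * D := mul_nonneg ht0 hD0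
        nlinarith [hu.2]
      calc dist w x ≤ dist w (γ u) + dist (γ u) x := dist_triangle _ _ _
        _ ≤ ρ := by linarith)
    set η := min (min (ρ - t' * D) (δ / 3)) (η0 / 2) with hη
    have hηpos : 0 < η := lt_min (lt_min (by linarith) (by have := h.pos; positivity)) (by positivity)
    have hη1 : η ≤ ρ - t' * D := (min_le_left _ _).trans (min_le_left _ _)
    have hη2 : η ≤ δ / 3 := (min_le_left _ _).trans (min_le_right _ _)
    have hη3 : η ≤ η0 / 2 := min_le_right _ _
    have had : dist a x ≤ t' * D := by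
      have h1 := hγ.dist_le 1 ⟨zero_le_one, le_rfl⟩
      rw [hγ.2.1, dist_self, add_zero, hFa] at h1
      exact h1
    have hsb : closedBall a η ⊆ S := by
      intro w hw
      apply hsub
      rw [mem_closedBall] at hw ⊢
      calc dist w x ≤ dist w a + dist a x := dist_triangle _ _ _
        _ ≤ ρ := by linarith
    have hc := h.cover a η hηpos (by have := h.pos; linarith) hsb
    have hD1 : 0 < D + 1 := by linarith
    have hnb : Ioo t' (min 1 (t' + η / (D + 1))) ∈ 𝓝[>] t' :=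
      Ioo_mem_nhdsGT (lt_min ht1 (by have : 0 < η / (D + 1) := by positivity
                                     linarith))
    apply Filter.mem_of_superset hnb
    intro u hu
    have hu1 : u < 1 := hu.2.trans_le (min_le_left _ _)
    have hu2 : u < t' + η / (D + 1) := hu.2.trans_le (min_le_right _ _)
    have hdu : dist (AffineMap.lineMap (F x) y u : E n) (F a) = (u - t') * D := by
      rw [haF, dist_lineMap_lineMap, Real.dist_eq, abs_of_nonneg (by linarith [hu.1]), dist_comm (F x) y]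
    have hdlt : (u - t') * D < η := by
      have h1 : u - t' < η / (D + 1) := by linarith
      have h2 : (u - t') * (D + 1) < η := by rwa [lt_div_iff₀ hD1] at h1
      nlinarith [hu.1]
    obtain ⟨w, hw, hwF, hwd⟩ := hc (AffineMap.lineMap (F x) y u) (by rw [hdu]; exact hdlt)
    rw [hdu] at hwd
    exact ⟨(u, w), ⟨⟨by linarith [hu.1], hu1.le⟩, hvis w (by linarith), hwF⟩, rfl⟩
  obtain ⟨⟨t, a⟩, ⟨-, ⟨γ, hγ⟩, haF⟩, ht⟩ := hsub2 (⟨zero_le_one, le_rfl⟩ : (1 : ℝ) ∈ Icc (0:ℝ) 1)
  simp only at ht haF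
  subst ht
  exact ⟨a, γ, hγ, by simpa using haF⟩

theorem vis_interior {n : ℕ} {F : E n → E n} {δ : ℝ} (h : Expd (cube n) F δ) {b s : E n}
    {γ : ℝ → E n} (hγ : Vis (cube n) F b s γ)
    (hlt : ∀ t ∈ Icc (0 : ℝ) 1, ∀ i, |γ t i| ≠ 1) :
    s ∈ interior {s | ∃ γ, Vis (cube n) F b s γ} := by
  have hγc : ContinuousOn γ (Icc (0 : ℝ) 1) := by
    have : LipschitzOnWith (Real.toNNReal (dist (F b) (F s))) γ
        (Icc (0 : ℝ) 1) := by
      apply LipschitzOnWith.of_dist_le_mul
      intro t ht u hu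
      rw [Real.coe_toNNReal _ dist_nonneg, Real.dist_eq]
      exact hγ.2.2.2 t ht u hu
    exact this.continuousOn
  obtain ⟨tm, htm, hmax⟩ := isCompact_Icc.exists_isMaxOn (⟨0, le_rfl, zero_le_one⟩ :
    (Icc (0 : ℝ) 1).Nonempty) (f := fun t => ‖WithLp.ofLp (γ t)‖)
    ((PiLp.continuous_ofLp 2 _).comp_continuousOn hγc).norm
  have hM : ‖WithLp.ofLp (γ tm)‖ < 1 := by
    rw [pi_norm_lt_iff zero_lt_one]
    intro i
    rw [Real.norm_eq_abs]
    exact lt_of_le_of_ne ((hγ.2.2.1 tm htm).1 i) (hlt tm htm i)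
  obtain ⟨η, hη, hηv⟩ := vis_open h hγ (1 - ‖WithLp.ofLp (γ tm)‖) (by linarith) (by
    intro t ht
    apply closedBall_subset_cube
    intro i
    have h1 : ‖WithLp.ofLp (γ t)‖ ≤ ‖WithLp.ofLp (γ tm)‖ := hmax ht
    have h2 : ‖(WithLp.ofLp (γ t)) i‖ ≤ ‖WithLp.ofLp (γ t)‖ := norm_le_pi_norm _ i
    rw [Real.norm_eq_abs] at h2
    linarith)
  rw [mem_interior]
  exact ⟨ball s η, fun w hw => hηv w hw, isOpen_ball, mem_ball_self hη⟩

end Pool.Agent.H881R3.Expand
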