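import Mathlib
import Pool.Agent.H881R3.Expand.Strong

set_option autoImplicit false

open Set Metric Topology Filter
open scoped NNReal

namespace Pool.Agent.H881R3.Expand

/-- No expanding map of the cube into a ball of radius `r < √n` whose centre `z` is at distance
`κ < 1` from the image of the centre of the cube, if also `r < 3 - κ`. -/
theorem strong_centre {n : ℕ} (hn : 0 < n) {F : E n → E n} {δ : ℝ} (h : Expd (cube n) F δ)
    (z : E n) (r : ℝ) (hr : ∀ x ∈ cube n, dist (F x) z ≤ r) (κ : ℝ) (hκ : dist (F 0) z ≤ κ)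
    (hκ1 : κ < 1) (hr2 : r < 3 - κ) (hrn : r < Real.sqrt n) :
    False := by
  classical
  -- a point over the centre, visible from `0`
  have hsub0 := closedBall_subset_cube (0 : E n) 1 (by simp)
  obtain ⟨x₀, γ₀, hγ₀, hFx₀⟩ := h.reachVis (isCompact_cube n) 0 1 hsub0 z
    (by rw [dist_comm]; linarith)
  have hx₀ : ∀ i, |x₀ i| ≤ κ := by
    intro i
    have h1 := hγ₀.dist_le 1 ⟨zero_le_one, le_rfl⟩
    rw [hγ₀.2.1, dist_self, add_zero, hFx₀] at h1
    have h2 := abs_apply_sub_le x₀ 0 i
    simp only [PiLp.zero_apply, sub_zero] at h2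
    linarith
  have h0vis : ∃ γ, Vis (cube n) F x₀ 0 γ := ⟨_, hγ₀.symm⟩
  -- the opposite corner
  set c : E n := WithLp.toLp 2 (fun i => if x₀ i ≤ 0 then (1 : ℝ) else -1) with hc
  have hci : ∀ i, c i = if x₀ i ≤ 0 then (1 : ℝ) else -1 := fun i => rfl
  have hcsq : ∀ i, c i * c i = 1 := by
    intro i; rw [hci]; split_ifs <;> norm_num
  have hcabs : ∀ i, |c i| = 1 := by
    intro i; rw [hci]; split_ifs <;> simp
  have hcx : ∀ i, c i * x₀ i = -|x₀ i| := by
    intro i; rw [hci]; split_ifs with h1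
    · rw [abs_of_nonpos h1]; ring
    · rw [abs_of_pos (not_le.1 h1)]; ring
  have hcdist : Real.sqrt n ≤ dist c x₀ := by
    rw [EuclideanSpace.dist_eq]
    apply Real.sqrt_le_sqrt
    calc (n : ℝ) = ∑ _i : Fin n, (1 : ℝ) := by simp
      _ ≤ ∑ i, dist (c i) (x₀ i) ^ 2 := by
          apply Finset.sum_le_sum
          intro i _
          rw [Real.dist_eq, sq_abs]
          have h1 := hcsq i
          have h2 := hcx i
          have h3 := abs_nonneg (x₀ i)
          nlinarith [sq_nonneg (x₀ i)]
  -- the visible set and the touching sets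
  set V : Set (E n) := {s | ∃ γ, Vis (cube n) F x₀ s γ} with hV
  have hVsub : V ⊆ cube n := by rintro s ⟨γ, hγ⟩; exact hγ.mem
  have hVc : IsCompact V :=
    (isCompact_cube n).of_isClosed_subset (vis_isClosed h.cont (isCompact_cube n) x₀) hVsub
  set Cp : Fin n → Set (E n) := fun i => {s | ∃ γ, Vis (cube n) F x₀ s γ ∧
    ∃ t ∈ Icc (0 : ℝ) 1, γ t ∈ {q : E n | q i = c i}} with hCp
  set Cm : Fin n → Set (E n) := fun i => {s | ∃ γ, Vis (cube n) F x₀ s γ ∧
    ∃ t ∈ Icc (0 : ℝ) 1, γ t ∈ {q : E n | q i = - c i}} with hCm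
  have hCpc : ∀ i, IsClosed (Cp i) := fun i =>
    touch_isClosed h.cont (isCompact_cube n) x₀ _ (isClosed_eq (by fun_prop) continuous_const)
  have hCmc : ∀ i, IsClosed (Cm i) := fun i =>
    touch_isClosed h.cont (isCompact_cube n) x₀ _ (isClosed_eq (by fun_prop) continuous_const)
  have hLen : ∀ s, s ∈ cube n → dist (F x₀) (F s) ≤ r := fun s hs => by
    rw [hFx₀, dist_comm]; exact hr s hs
  have hdisj : ∀ i, Disjoint (Cp i) (Cm i) := by
    intro i
    rw [Set.disjoint_left]
    rintro s ⟨γ, hγ, t, ht, hti⟩ ⟨γ', hγ', t', ht', hti'⟩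
    have e := Vis.unique h hγ hγ' t' ht'
    rw [← e] at hti'
    have h1 := hγ.2.2.2 t ht t' ht'
    have h2 := abs_apply_sub_le (γ t) (γ t') i
    have hti2 : γ t i = c i := hti
    have hti2' : γ t' i = - c i := hti'
    have ha := hγ.2.2.2 t ht 0 ⟨le_rfl, zero_le_one⟩
    have hb := hγ.2.2.2 t' ht' 0 ⟨le_rfl, zero_le_one⟩
    have ha2 := abs_apply_sub_le (γ t) (γ 0) i
    have hb2 := abs_apply_sub_le (γ t') (γ 0) i
    rw [sub_zero, abs_of_nonneg ht.1] at ha
    rw [sub_zero, abs_of_nonneg ht'.1] at hb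
    rw [hγ.1] at ha hb ha2 hb2
    have ha3 : 1 - |x₀ i| ≤ |γ t i - x₀ i| := by
      have := abs_sub_abs_le_abs_sub (γ t i) (x₀ i)
      rw [hti2, hcabs] at this
      rw [hti2]; exact this
    have hb3 : 1 - |x₀ i| ≤ |γ t' i - x₀ i| := by
      have := abs_sub_abs_le_abs_sub (γ t' i) (x₀ i)
      rw [hti2', abs_neg, hcabs] at this
      rw [hti2']; exact this
    rw [hti2, hti2'] at h2
    have h3 : |c i - -c i| = 2 := by
      have : c i - -c i = 2 * c i := by ring
      rw [this, abs_mul, hcabs]; norm_num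
    have h4 := hLen s hγ.mem
    have hxi := hx₀ i
    rcases le_total t t' with htt | htt
    · have h5 : |t - t'| = t' - t := by rw [abs_sub_comm, abs_of_nonneg (by linarith)]
      rw [h5] at h1
      have h6 : dist (F x₀) (F s) * t' ≤ dist (F x₀) (F s) * 1 :=
        mul_le_mul_of_nonneg_left ht'.2 dist_nonneg
      have h7 : dist (F x₀) (F s) * (t' - t) + dist (F x₀) (F s) * t =
        dist (F x₀) (F s) * t' := by ring
      linarith
    · have h5 : |t - t'| = t - t' := abs_of_nonneg (by linarith)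
      rw [h5] at h1
      have h6 : dist (F x₀) (F s) * t ≤ dist (F x₀) (F s) * 1 :=
        mul_le_mul_of_nonneg_left ht.2 dist_nonneg
      have h7 : dist (F x₀) (F s) * (t - t') + dist (F x₀) (F s) * t' =
        dist (F x₀) (F s) * t := by ring
      linarith
  have hinter : ∀ s, ¬ ∀ i, s ∈ Cp i := by
    intro s hs
    choose γ hγ T hT hTi using hs
    have hTi' : ∀ i, (γ ⟨0, hn⟩) (T i) i = c i := by
      intro i
      rw [Vis.unique h (hγ ⟨0, hn⟩) (hγ i) (T i) (hT i)]
      exact hTi i
    have h1 := corner_length (hγ ⟨0, hn⟩) c T hT hTi'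
    have h2 := hLen s (hγ ⟨0, hn⟩).mem
    linarith
  -- shrinking and Urysohn functions
  obtain ⟨v, hvU, hvc, hvsub⟩ := exists_iUnion_eq_closed_subset (u := fun i => (Cp i)ᶜ)
    (fun i => (hCpc i).isOpen_compl) (fun x => Set.toFinite _) (by
      rw [Set.eq_univ_iff_forall]
      intro x
      by_contra hx
      apply hinter x
      intro i
      by_contra hxi
      exact hx (Set.mem_iUnion.2 ⟨i, hxi⟩))
  have hα : ∀ i, ∃ f : C(E n, ℝ), EqOn f 0 (v i ∪ Cm i) ∧ EqOn f 1 (Cp i) ∧
      ∀ x, f x ∈ Icc (0 : ℝ) 1 := by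
    intro i
    apply exists_continuous_zero_one_of_isClosed ((hvc i).union (hCmc i)) (hCpc i)
    rw [Set.disjoint_union_left]
    refine ⟨?_, (hdisj i).symm⟩
    rw [Set.disjoint_left]
    intro x hx
    exact hvsub i hx
  have hβ : ∀ i, ∃ f : C(E n, ℝ), EqOn f 0 (Cp i) ∧ EqOn f 1 (Cm i) ∧
      ∀ x, f x ∈ Icc (0 : ℝ) 1 :=
    fun i => exists_continuous_zero_one_of_isClosed (hCpc i) (hCmc i) (hdisj i)
  choose α hα0 hα1 hα01 using hα
  choose β hβ0 hβ1 hβ01 using hβ
  set D : E n → E n := fun x => WithLp.toLp 2 (fun i => c i * (α i x - β i x)) with hD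
  have hDi : ∀ x i, D x i = c i * (α i x - β i x) := fun x i => rfl
  have hDc : Continuous D := by
    apply (PiLp.continuous_toLp 2 _).comp
    apply continuous_pi
    intro i
    have h1 := (α i).continuous
    have h2 := (β i).continuous
    fun_prop
  have hDabs : ∀ x i, |D x i| ≤ 1 := by
    intro x i
    rw [hDi, abs_mul, hcabs, one_mul, abs_le]
    have h1 := hα01 i x
    have h2 := hβ01 i x
    constructor <;> linarith [h1.1, h1.2, h2.1, h2.2]
  -- frontier points touch a facet
  have hfr : ∀ s ∈ V, s ∉ interior V → ∃ i, ∃ γ, Vis (cube n) F x₀ s γ ∧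
      ∃ t ∈ Icc (0:ℝ) 1, γ t i = D s i ∧ |D s i| = 1 := by
    rintro s ⟨γ, hγ⟩ hs
    by_contra hcon
    apply hs
    apply vis_interior h hγ
    intro t ht i hti
    apply hcon
    have hqi2 : γ t i = c i ∨ γ t i = -c i := by
      rcases abs_eq (zero_le_one (α := ℝ)) |>.1 hti with h1 | h1 <;>
      rcases abs_eq (zero_le_one (α := ℝ)) |>.1 (hcabs i) with h2 | h2 <;>
      rw [h1, h2] <;> norm_num
    refine ⟨i, γ, hγ, t, ht, ?_⟩
    rcases hqi2 with hq | hq
    · have hs1 : s ∈ Cp i := ⟨γ, hγ, t, ht, hq⟩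
      have ea : α i s = 1 := hα1 i hs1
      have eb : β i s = 0 := hβ0 i hs1
      rw [hDi, ea, eb, hq]
      simp [hcabs]
    · have hs1 : s ∈ Cm i := ⟨γ, hγ, t, ht, hq⟩
      have ea : α i s = 0 := hα0 i (Or.inr hs1)
      have eb : β i s = 1 := hβ1 i hs1
      rw [hDi, ea, eb, hq]
      simp [hcabs]
  -- the homotopy
  set H : ℝ → E n → E n := fun u x =>
    (min u (2 - u)) • (x - D x) + (max 0 (u - 1)) • ((2 : ℝ) • c) with hH
  have hHc : Continuous (fun p : ℝ × E n => H p.1 p.2) := by
    have h1 : Continuous (fun p : ℝ × E n => D p.2) := hDc.comp continuous_snd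
    simp only [hH]
    fun_prop
  have hHfr : ∀ s ∈ V, s ∉ interior V → ∀ u ∈ Icc (0 : ℝ) 2, H u s ≠ s := by
    intro s hs hsi u hu heq
    obtain ⟨i, γ, hγ, t, ht, hti, hDabs1⟩ := hfr s hs hsi
    have hcoord : ∀ k, min u (2 - u) * (s k - D s k) + max 0 (u - 1) * (2 * c k) = s k := by
      intro k
      have := congrArg (fun w : E n => w k) heq
      simpa [hH] using this
    rcases le_or_gt u 1 with hu1 | hu1
    · -- stage one
      have hm : min u (2 - u) = u := min_eq_left (by linarith)
      have hM : max 0 (u - 1) = 0 := max_eq_left (by linarith)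
      have hk : ∀ k, (1 - u) * s k = - (u * D s k) := by
        intro k
        have := hcoord k
        rw [hm, hM] at this
        linarith
      rcases eq_or_lt_of_le hu1 with hu1' | hu1'
      · have h1 := hk i
        rw [hu1', sub_self, zero_mul, one_mul] at h1
        have h2 : D s i = 0 := by linarith
        rw [h2] at hDabs1
        norm_num at hDabs1
      · set τ := u / (1 - u) with hτ
        have hsk : ∀ k, s k = -(τ * D s k) := by
          intro k
          have h1 := hk k
          have h1u : 1 - u ≠ 0 := by linarith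
          rw [hτ]; field_simp; linarith
        have hτ0 : 0 ≤ τ := div_nonneg hu.1 (by linarith)
        have hsi' : |s i| = τ := by
          rw [hsk, abs_neg, abs_mul, hDabs1, abs_of_nonneg hτ0, mul_one]
        have hτ1 : τ ≤ 1 := by rw [← hsi']; exact hVsub hs i
        have h1 := inradius hn h z r hr s (1 - τ) (by linarith) (by
          intro k
          rw [hsk, abs_neg, abs_mul, abs_of_nonneg hτ0]
          have := hDabs s k
          nlinarith)
        have h2 := touch_length hγ t ht i
        rw [hFx₀, dist_comm z] at h2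
        have h3 : |γ t i - s i| = 1 + τ := by
          rw [hti, hsk i]
          have : D s i - -(τ * D s i) = (1 + τ) * D s i := by ring
          rw [this, abs_mul, hDabs1, mul_one, abs_of_nonneg (by linarith)]
        have h4 : 1 - |x₀ i| ≤ |γ t i - x₀ i| := by
          have := abs_sub_abs_le_abs_sub (γ t i) (x₀ i)
          rw [hti, hDabs1] at this
          rw [hti]; exact this
        have h5 := hx₀ i
        linarith
    · -- stage two
      have hm : min u (2 - u) = 2 - u := min_eq_right (by linarith)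
      have hM : max 0 (u - 1) = u - 1 := max_eq_right (by linarith)
      have hxs : s ∈ ⋃ i, v i := by rw [hvU]; trivial
      obtain ⟨j, hj⟩ := Set.mem_iUnion.1 hxs
      have ea : α j s = 0 := hα0 j (Or.inl hj)
      have eb := (hβ01 j s).1
      have hj2 := hcoord j
      rw [hm, hM, hDi, ea] at hj2
      have hsj := hVsub hs j
      have hσ : c j * s j ≤ 1 := by
        calc c j * s j ≤ |c j * s j| := le_abs_self _
          _ = |s j| := by rw [abs_mul, hcabs, one_mul]
          _ ≤ 1 := hsj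
      have hj3 : (2 - u) * β j s * (c j * c j) + (u - 1) * (2 * (c j * c j) - c j * s j) = 0 := by
        have : c j * ((2 - u) * (s j - c j * (0 - β j s)) + (u - 1) * (2 * c j)) = c j * s j := by
          rw [hj2]
        linear_combination this
      rw [hcsq, mul_one] at hj3
      have h6 : 0 ≤ (2 - u) * β j s := mul_nonneg (by linarith [hu.2]) eb
      have h7 : 0 < (u - 1) * (2 * 1 - c j * s j) := mul_pos (by linarith) (by linarith)
      linarith
  -- the fixed point argument
  set K : Set (E n) := Prod.snd '' {p : ℝ × E n | p.1 ∈ Icc (0 : ℝ) 2 ∧ p.2 ∈ V ∧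
    H p.1 p.2 = p.2} with hK
  have hKc : IsClosed K := by
    apply IsCompact.isClosed
    apply IsCompact.image _ continuous_snd
    refine (isCompact_Icc.prod hVc).of_isClosed_subset (s := Icc (0 : ℝ) 2 ×ˢ V) ?_ ?_
    · exact (isClosed_Icc.preimage continuous_fst).inter
        ((hVc.isClosed.preimage continuous_snd).inter (isClosed_eq hHc continuous_snd))
    · rintro p ⟨h1, h2, -⟩; exact ⟨h1, h2⟩
  obtain ⟨φ, hφ0, hφ1, hφ01⟩ := exists_continuous_zero_one_of_isClosed
    (isOpen_interior (s := V)).isClosed_compl hKc (by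
      rw [Set.disjoint_left]
      rintro x hx ⟨⟨u, y⟩, ⟨hu, hyV, hy⟩, hxy⟩
      simp only at hxy hu hyV hy
      subst hxy
      exact hHfr y hyV hx u hu hy)
  set g : E n → E n := fun x => H (2 * φ x) x with hg
  have hgc : Continuous g := by
    have h1 := φ.continuous
    exact hHc.comp (by fun_prop : Continuous fun x => ((2 * φ x, x) : ℝ × E n))
  obtain ⟨R, hR⟩ : ∃ R, ∀ x, ‖g x‖ ≤ R := by
    obtain ⟨R, hR⟩ := hVc.exists_bound_of_continuousOn hgc.continuousOn
    refine ⟨max R 0, fun x => ?_⟩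
    by_cases hx : x ∈ interior V
    · exact (hR x (interior_subset hx)).trans (le_max_left _ _)
    · have : φ x = 0 := hφ0 hx
      simp [hg, hH, this]
  obtain ⟨x, hx⟩ := Helper728.Coag.Brouwer.brouwer g hgc R hR
  by_cases hxi : x ∈ interior V
  · have hxK : x ∈ K := ⟨(2 * φ x, x), ⟨⟨by have := (hφ01 x).1; positivity,
      by have := (hφ01 x).2; simp only; linarith⟩, interior_subset hxi, hx⟩, rfl⟩
    have h1 : φ x = 1 := hφ1 hxK
    have hxc := hVsub (interior_subset hxi) ⟨0, hn⟩
    have h2 : x ⟨0, hn⟩ = 2 * c ⟨0, hn⟩ := by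
      have h3 : g x = (2 : ℝ) • c := by
        simp only [hg, hH, h1]
        norm_num
      rw [← hx, h3]
      simp
    rw [h2, abs_mul, hcabs] at hxc
    norm_num at hxc
  · have h1 : φ x = 0 := hφ0 hxi
    have hx0 : x = 0 := by
      rw [← hx]; simp [hg, hH, h1]
    rw [hx0] at hxi
    apply hHfr 0 h0vis hxi 0 ⟨le_rfl, by norm_num⟩
    simp [hH]

end Pool.Agent.H881R3.Expand
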