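import Mathlib
import Pool.Agent.H881R3.Expand.Core

set_option autoImplicit false

open Set Metric Topology Filter
open scoped NNReal

namespace Pool.Agent.H881R3.Expand

/-- Clamping to the cube. -/
noncomputable def clamp {n : ℕ} (x : E n) : cube n :=
  ⟨WithLp.toLp 2 (fun i => max (-1) (min 1 (x i))), fun i => by
    show |max (-1) (min 1 (x i))| ≤ 1
    rw [abs_le]
    exact ⟨le_max_left _ _, max_le (by norm_num) (min_le_left _ _)⟩⟩

theorem clamp_continuous {n : ℕ} : Continuous (clamp (n := n)) := by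
  apply Continuous.subtype_mk
  apply (PiLp.continuous_toLp 2 _).comp
  fun_prop

theorem clamp_of_mem {n : ℕ} (x : cube n) : clamp (x : E n) = x := by
  apply Subtype.ext
  ext i
  have h := x.2 i
  rw [abs_le] at h
  show max (-1) (min 1 ((x : E n) i)) = (x : E n) i
  rw [min_eq_right h.2, max_eq_right h.1]

/-- From the pointwise definition of an expanding map on the cube to the uniform one. -/
theorem exists_expd {n : ℕ} (f : cube n → E n) (hf : Continuous f)
    (hexp : ∀ x, ∃ U ∈ 𝓝 x, ∀ y ∈ U, ∀ w ∈ U, dist y w ≤ dist (f y) (f w)) :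
    ∃ δ, Expd (cube n) (fun x => f (clamp x)) δ := by
  have : CompactSpace (cube n) := isCompact_iff_compactSpace.1 (isCompact_cube n)
  choose U hU hUe using hexp
  obtain ⟨δ, hδ, hδU⟩ := lebesgue_number_lemma_of_metric (isCompact_univ (X := cube n))
    (c := fun x => interior (U x)) (fun x => isOpen_interior)
    (fun x _ => mem_iUnion.2 ⟨x, mem_interior_iff_mem_nhds.2 (hU x)⟩)
  refine ⟨δ, hf.comp clamp_continuous, hδ, ?_⟩
  intro a ha b hb hab
  obtain ⟨x, hx⟩ := hδU ⟨a, ha⟩ (mem_univ _)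
  have h1 : (⟨a, ha⟩ : cube n) ∈ U x := interior_subset (hx (mem_ball_self hδ))
  have h2 : (⟨b, hb⟩ : cube n) ∈ U x := by
    apply interior_subset
    apply hx
    rw [mem_ball, Subtype.dist_eq, dist_comm]
    exact hab
  have h3 := hUe x _ h1 _ h2
  have e1 : clamp a = ⟨a, ha⟩ := clamp_of_mem ⟨a, ha⟩
  have e2 : clamp b = ⟨b, hb⟩ := clamp_of_mem ⟨b, hb⟩
  show dist a b ≤ dist (f (clamp a)) (f (clamp b))
  rw [e1, e2]
  exact h3

theorem zero_mem_cube (n : ℕ) : (0 : E n) ∈ cube n := by intro i; simp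

/-- The case `n = 2`. -/
theorem two_dim {F : E 2 → E 2} {δ : ℝ} (h : Expd (cube 2) F δ) (z : E 2)
    (r : ℝ) (hr : ∀ x ∈ cube 2, dist (F x) z ≤ r) : Real.sqrt 2 ≤ r := by
  by_contra hcon
  push Not at hcon
  have hs2 : Real.sqrt 2 < 3 / 2 := by
    rw [Real.sqrt_lt' (by norm_num)]; norm_num
  have h1 := inradius two_pos h z r hr 0 1 zero_le_one (by intro i; simp)
  obtain ⟨b, hb, hbF⟩ := h.reach 0 1 (closedBall_subset_cube 0 1 (by intro i; simp)) z (by
    rw [dist_comm]; linarith)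
  have hbi : ∀ i, |b i| ≤ r - 1 := by
    intro i
    have h2 := abs_apply_sub_le b 0 i
    rw [dist_comm z] at hb
    have h3 : |b i - (0 : E 2) i| = |b i| := by simp
    rw [h3] at h2
    linarith
  have h4 := core two_pos h z r hr b (r - 1) (by linarith) hbi (Real.sqrt 2) (by
    intro l hl
    have h5 : Real.sqrt 2 ≤ Real.sqrt ((2 - l) ^ 2 + (((2 : ℕ) : ℝ) - 1) * l ^ 2) := by
      apply Real.sqrt_le_sqrt
      push_cast
      nlinarith [sq_nonneg (l - 1)]
    have := hl.2
    linarith)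
  rw [hbF, dist_self, add_zero] at h4
  rcases min_le_iff.1 h4 with h5 | h5 <;> linarith

/-- The bound in dimension at least three. -/
theorem high_dim {n : ℕ} (hn : 3 ≤ n) {F : E n → E n} {δ : ℝ} (h : Expd (cube n) F δ) (z : E n)
    (r : ℝ) (hr : ∀ x ∈ cube n, dist (F x) z ≤ r) : 2 - 4 / (3 * (n : ℝ)) ≤ r := by
  have hn0 : 0 < n := by omega
  have hnR : (3 : ℝ) ≤ n := by exact_mod_cast hn
  by_contra hcon
  push Not at hcon
  set w : ℝ := 1 / (n : ℝ) with hw
  have hw0 : 0 < w := by positivity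
  have hw3 : w ≤ 1 / 3 := by rw [hw]; gcongr
  have hwn : w * n = 1 := by rw [hw]; field_simp
  have e1 : 4 / (3 * (n : ℝ)) = 4 / 3 * w := by rw [hw]; field_simp
  rw [e1] at hcon
  have h1 := inradius hn0 h z r hr 0 1 zero_le_one (by intro i; simp)
  set d := dist (F 0) z with hd
  have hK : ∀ l ∈ Icc (0 : ℝ) 1, 3 - 4 * w ≤
      Real.sqrt ((2 - l) ^ 2 + ((n : ℝ) - 1) * l ^ 2) + (1 - l) := by
    intro l hl
    have h5 : 2 + l - 4 * w ≤ Real.sqrt ((2 - l) ^ 2 + ((n : ℝ) - 1) * l ^ 2) := by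
      apply Real.le_sqrt_of_sq_le
      have e2 : (2 - l) ^ 2 + ((n : ℝ) - 1) * l ^ 2 - (2 + l - 4 * w) ^ 2 =
          (n - 1) * (l - 4 * w) ^ 2 := by
        have e3 : (n : ℝ) * w = 1 := by linarith
        have : (n : ℝ) * w ^ 2 = w := by rw [sq, ← mul_assoc, e3, one_mul]
        linear_combination (8 * l) * e3 - 16 * this
      have : 0 ≤ ((n : ℝ) - 1) * (l - 4 * w) ^ 2 := by
        apply mul_nonneg (by linarith) (sq_nonneg _)
      linarith
    linarith
  rcases le_or_gt d (1 - 8 / 3 * w) with hc | hc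
  · -- base point 0
    have h4 := core hn0 h z r hr 0 0 one_pos (by intro i; simp) (3 - 4 * w) hK
    rw [← hd] at h4
    rcases min_le_iff.1 h4 with h5 | h5 <;> linarith
  · -- base point at distance 1 - 8/3 w
    have hdpos : 0 < d := by linarith
    set y : E n := AffineMap.lineMap z (F 0) ((1 - 8 / 3 * w) / d) with hy
    have hyz : dist y z = 1 - 8 / 3 * w := by
      rw [hy, dist_lineMap_left, Real.norm_eq_abs, abs_of_nonneg (by
        apply div_nonneg _ hdpos.le; linarith), dist_comm z, ← hd, div_mul_cancel₀ _ hdpos.ne']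
    have hy0 : dist y (F 0) = d - (1 - 8 / 3 * w) := by
      rw [hy, dist_lineMap_right, dist_comm z, ← hd, Real.norm_eq_abs, abs_of_nonneg]
      · field_simp
      · rw [sub_nonneg, div_le_one hdpos]; exact hc.le
    obtain ⟨b, hb, hbF⟩ := h.reach 0 1 (closedBall_subset_cube 0 1 (by intro i; simp)) y (by
      rw [hy0]; linarith)
    rw [hy0] at hb
    have hbi : ∀ i, |b i| ≤ 4 / 3 * w := by
      intro i
      have h2 := abs_apply_sub_le b 0 i
      have h3 : |b i - (0 : E n) i| = |b i| := by simp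
      rw [h3] at h2
      linarith
    have h4 := core hn0 h z r hr b (4 / 3 * w) (by linarith) hbi (3 - 4 * w) hK
    rw [hbF, hyz] at h4
    rcases min_le_iff.1 h4 with h5 | h5 <;> linarith

end Pool.Agent.H881R3.Expand
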