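import Mathlib
import Pool.Agent.H881R3.Expand.Final
import Pool.Agent.H881R3.Expand.Strong

set_option autoImplicit false

open Set Metric Topology

namespace Pool.Agent.Results.MP_c0b923_gt.MinSqrtTwo

/-- Let `n ≥ 1`. If `f` maps the cube `[-1,1]^n` to `ℝ^n`, is continuous and locally distance
non-decreasing (every point of the cube has a neighbourhood in the cube on which `f` does not
decrease distances), and its image lies in the closed ball of centre `z` and radius `r`, then
`min (√n) 2 ≤ r`. For `n ≤ 4` this is the sharp bound `√n ≤ r`. -/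
theorem result (n : ℕ) (hn : 1 ≤ n)
    (f : {x : EuclideanSpace ℝ (Fin n) // ∀ i, |x i| ≤ 1} → EuclideanSpace ℝ (Fin n))
    (hf : Continuous f)
    (hexp : ∀ x, ∃ U ∈ 𝓝 x, ∀ y ∈ U, ∀ w ∈ U, dist y w ≤ dist (f y) (f w))
    (z : EuclideanSpace ℝ (Fin n)) (r : ℝ) (hr : ∀ x, f x ∈ closedBall z r) :
    min (Real.sqrt n) 2 ≤ r := by
  obtain ⟨δ, hδ⟩ := Pool.Agent.H881R3.Expand.exists_expd (n := n) f hf hexp
  by_contra hcon
  rw [not_le, lt_min_iff] at hcon
  exact Pool.Agent.H881R3.Expand.strong (by omega) hδ z r (fun x _ => hr _) hcon.2 hcon.1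

end Pool.Agent.Results.MP_c0b923_gt.MinSqrtTwo
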